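import Pool.Agent.Lib.CharExpP.Independent

/-!
# Fitting's theorem with class, and the bounded class case
-/

namespace Pool.CharExpP

open Subgroup
open scoped commutatorElement

universe u

variable {G : Type u} [Group G]

theorem comm_le_iff {K : Subgroup G} [K.Normal] (A X : Subgroup G) :
    ⁅A, X⁆ ≤ K ↔
      X ≤ (centralizer ((A.map (QuotientGroup.mk' K) : Subgroup (G ⧸ K)) : Set (G ⧸ K))).comap
        (QuotientGroup.mk' K) := by
  rw [← map_le_iff_le_comap, ← commutator_eq_bot_iff_le_centralizer, commutator_comm,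
    ← map_commutator, eq_bot_iff, map_le_iff_le_comap, MonoidHom.comap_bot, QuotientGroup.ker_mk']

theorem comm_sup_le {K A M N : Subgroup G} [K.Normal] (h1 : ⁅A, M⁆ ≤ K) (h2 : ⁅A, N⁆ ≤ K) :
    ⁅A, M ⊔ N⁆ ≤ K := by
  rw [comm_le_iff] at h1 h2 ⊢
  exact sup_le h1 h2

theorem iSup_comm_le {K X : Subgroup G} [K.Normal] {ι : Sort*} (A : ι → Subgroup G)
    (h : ∀ i, ⁅A i, X⁆ ≤ K) : ⁅⨆ i, A i, X⁆ ≤ K := by
  rw [commutator_comm, comm_le_iff]
  refine iSup_le fun i => ?_
  rw [← comm_le_iff, commutator_comm]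
  exact h i

/-- `lcsS M 0 = ⊤`, `lcsS M (i + 1) = γ_{i+1}(M)`. -/
def lcsS (M : Subgroup G) : ℕ → Subgroup G
  | 0 => ⊤
  | k + 1 => M.lowerCentralSeries k

instance lcsS_normal (M : Subgroup G) [M.Normal] (i : ℕ) : (lcsS M i).Normal := by
  cases i <;> (unfold lcsS; infer_instance)

theorem lcsS_comm (M : Subgroup G) [M.Normal] (i : ℕ) : ⁅lcsS M i, M⁆ ≤ lcsS M (i + 1) := by
  cases i with
  | zero => exact commutator_le_right _ _
  | succ i => exact le_of_eq (Subgroup.lowerCentralSeries_succ M i).symm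

/-- The terms `⨆_{i + j = k} γ_i(M) ⊓ γ_j(N)`. -/
def mixed (M N : Subgroup G) (k : ℕ) : Subgroup G :=
  ⨆ q : {q : ℕ × ℕ // q.1 + q.2 = k}, lcsS M q.1.1 ⊓ lcsS N q.1.2

instance mixed_normal (M N : Subgroup G) [M.Normal] [N.Normal] (k : ℕ) :
    (mixed M N k).Normal := by
  unfold mixed
  infer_instance

theorem mixed_comm (M N : Subgroup G) [M.Normal] [N.Normal] (k : ℕ) :
    ⁅mixed M N k, M ⊔ N⁆ ≤ mixed M N (k + 1) := by
  apply comm_sup_le
  · apply iSup_comm_le
    rintro ⟨⟨i, j⟩, hij⟩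
    have h1 : lcsS M (i + 1) ⊓ lcsS N j ≤ mixed M N (k + 1) :=
      le_iSup (fun q : {q : ℕ × ℕ // q.1 + q.2 = k + 1} => lcsS M q.1.1 ⊓ lcsS N q.1.2)
        ⟨(i + 1, j), by simp at hij ⊢; omega⟩
    refine le_trans (le_inf ?_ ?_) h1
    · exact (commutator_mono inf_le_left le_rfl).trans (lcsS_comm M i)
    · exact (commutator_mono inf_le_right le_rfl).trans (commutator_le_left _ _)
  · apply iSup_comm_le
    rintro ⟨⟨i, j⟩, hij⟩
    have h1 : lcsS M i ⊓ lcsS N (j + 1) ≤ mixed M N (k + 1) :=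
      le_iSup (fun q : {q : ℕ × ℕ // q.1 + q.2 = k + 1} => lcsS M q.1.1 ⊓ lcsS N q.1.2)
        ⟨(i, j + 1), by simp at hij ⊢; omega⟩
    refine le_trans (le_inf ?_ ?_) h1
    · exact (commutator_mono inf_le_left le_rfl).trans (commutator_le_left _ _)
    · exact (commutator_mono inf_le_right le_rfl).trans (lcsS_comm N j)

/-- **Fitting's theorem** with the bound on the class. -/
theorem fitting {M N : Subgroup G} [M.Normal] [N.Normal] (h : M ⊔ N = ⊤) {c d : ℕ}
    (hM : M.lowerCentralSeries c = ⊥) (hN : N.lowerCentralSeries d = ⊥) :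
    (⊤ : Subgroup G).lowerCentralSeries (c + d) = ⊥ := by
  have key : ∀ k, (⊤ : Subgroup G).lowerCentralSeries k ≤ mixed M N (k + 1) := by
    intro k
    induction k with
    | zero =>
      rw [Subgroup.lowerCentralSeries_zero, ← h]
      refine sup_le ?_ ?_
      · exact le_trans (le_inf le_rfl le_top)
          (le_iSup (fun q : {q : ℕ × ℕ // q.1 + q.2 = 0 + 1} => lcsS M q.1.1 ⊓ lcsS N q.1.2)
          ⟨(1, 0), rfl⟩)
      · exact le_trans (le_inf le_top le_rfl)
          (le_iSup (fun q : {q : ℕ × ℕ // q.1 + q.2 = 0 + 1} => lcsS M q.1.1 ⊓ lcsS N q.1.2)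
          ⟨(0, 1), rfl⟩)
    | succ k ih =>
      rw [Subgroup.lowerCentralSeries_succ, ← h]
      rw [← h] at ih
      exact (commutator_mono ih le_rfl).trans (mixed_comm M N (k + 1))
  rw [eq_bot_iff]
  refine (key _).trans (iSup_le ?_)
  rintro ⟨⟨i, j⟩, hij⟩
  simp only at hij ⊢
  rcases Nat.lt_or_ge c i with h1 | h1
  · refine inf_le_left.trans ?_
    obtain ⟨i, rfl⟩ := Nat.exists_eq_succ_of_ne_zero (show i ≠ 0 by omega)
    rw [← hM]
    exact Subgroup.lowerCentralSeries_antitone M (by omega)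
  · refine inf_le_right.trans ?_
    obtain ⟨j, rfl⟩ := Nat.exists_eq_succ_of_ne_zero (show j ≠ 0 by omega)
    rw [← hN]
    exact Subgroup.lowerCentralSeries_antitone N (by omega)

theorem normal_of_index_prime {p : ℕ} (hp : p.Prime) [Finite G] (hG : IsPGroup p G)
    {H : Subgroup G} (hi : H.index = p) : H.Normal := by
  have : Fact p.Prime := ⟨hp⟩
  obtain ⟨n, hn⟩ := IsPGroup.iff_card.mp hG
  apply Subgroup.normal_of_index_eq_minFac_card
  rw [hi, hn]
  have hn0 : n ≠ 0 := by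
    rintro rfl
    have := H.index_dvd_card
    rw [hi, hn, pow_zero, Nat.dvd_one] at this
    exact hp.one_lt.ne' this
  rw [Nat.Prime.pow_minFac hp hn0]

theorem sup_eq_top_of_index_prime {p : ℕ} (hp : p.Prime) {H K : Subgroup G}
    (hi : H.index = p) (h : ¬ K ≤ H) : H ⊔ K = ⊤ := by
  have h1 : H.relIndex (H ⊔ K) * (H ⊔ K).index = H.index := relIndex_mul_index le_sup_left
  rw [hi] at h1
  have h2 : (H ⊔ K).index ∣ p := ⟨_, by rw [mul_comm]; exact h1.symm⟩
  rcases (Nat.dvd_prime hp).mp h2 with h3 | h3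
  · exact index_eq_one.mp h3
  · exfalso
    rw [h3] at h1
    have h4 : H.relIndex (H ⊔ K) = 1 := by
      have := hp.pos
      nlinarith
    rw [relIndex_eq_one] at h4
    exact h (le_sup_right.trans h4)

/-- The bounded class case. -/
theorem bounded_class {p c : ℕ} (hp : p.Prime) [Finite G] (hG : IsPGroup p G)
    (H₀ : Subgroup G) (hi₀ : H₀.index = p) (he₀ : ∀ h ∈ H₀, h ^ p = 1)
    (hc₀ : H₀.lowerCentralSeries c = ⊥) :
    ∃ K : Subgroup G, K.Characteristic ∧ (∀ k ∈ K, k ^ p = 1) ∧ K.index ≤ p ^ (2 * c) := by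
  by_cases hexp : ∀ g : G, g ^ p = 1
  · exact ⟨⊤, inferInstance, fun g _ => hexp g, by
      rw [index_top]; exact Nat.one_le_pow _ _ hp.pos⟩
  let 𝓗 : Set (Subgroup G) :=
    {H | H.index = p ∧ (∀ h ∈ H, h ^ p = 1) ∧ H.lowerCentralSeries c = ⊥}
  have hmem : H₀ ∈ 𝓗 := ⟨hi₀, he₀, hc₀⟩
  have hN : ∀ H ∈ 𝓗, H.Normal := fun H hH => normal_of_index_prime hp hG hH.1
  refine ⟨sInf 𝓗, ?_, fun k hk => he₀ k (sInf_le hmem hk), ?_⟩
  · rw [characteristic_iff_le_comap]
    intro φ
    rw [← map_le_iff_le_comap]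
    refine le_sInf ?_
    intro H hH
    rw [map_le_iff_le_comap]
    refine sInf_le ?_
    refine ⟨?_, ?_, ?_⟩
    · rw [index_comap_of_surjective _ φ.surjective]; exact hH.1
    · intro h hh
      have := hH.2.1 (φ h) hh
      rw [← map_pow] at this
      exact φ.injective (by rw [map_one]; exact this)
    · have h1 : (H.comap φ.toMonoidHom).map φ.toMonoidHom = H :=
        map_comap_eq_self_of_surjective φ.surjective H
      have h2 := map_lowerCentralSeries (H.comap φ.toMonoidHom) φ.toMonoidHom c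
      rw [h1, hH.2.2] at h2
      rw [eq_bot_iff]
      intro x hx
      have : φ x ∈ ((H.comap φ.toMonoidHom).lowerCentralSeries c).map φ.toMonoidHom :=
        mem_map_of_mem _ hx
      rw [h2] at this
      exact φ.injective (by rw [map_one]; exact this)
  · by_contra hlt
    push Not at hlt
    obtain ⟨H, hH, hI⟩ := exists_indep hp 𝓗 hN (fun H hH => hH.1) (2 * c) hlt
    apply hexp
    -- the case `c = 0`
    rcases Nat.eq_zero_or_pos c with rfl | hc
    · intro g
      have h1 : H₀ = ⊥ := hc₀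
      have h2 : Nat.card G = p := by rw [← hi₀, h1, index_bot]
      rw [← h2]
      exact pow_card_eq_one'
    · have h01 : (H 0) ⊔ (H 1) = ⊤ := by
        apply sup_eq_top_of_index_prime hp (hH 0).1
        intro hle
        have h10 : (1 : Fin (2 * c + 1)) ≠ 0 := by
          intro h
          rw [Fin.one_eq_zero_iff] at h
          omega
        obtain ⟨y, hy1, hy2⟩ := hI 0
        exact hy1 (hle (hy2 1 h10))
      have hfit := @fitting G _ (H 0) (H 1) (hN _ (hH 0)) (hN _ (hH 1)) h01 c c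
        (hH 0).2.2 (hH 1).2.2
      have hbot : lcsF G (2 * c + 1) = ⊥ := by
        rw [← two_mul] at hfit
        exact hfit
      exact exponent_of_indep hp (Nat.succ_pos _) hbot (fun i => hN _ (hH i))
        (fun i => (hH i).1) (fun i => (hH i).2.1) hI

end Pool.CharExpP
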