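import Mathlib

/-!
# Filtered groups and cubes

`IsFilt F`: the decreasing sequence `F 0 ≥ F 1 ≥ ...` of subgroups satisfies `⁅F i, F j⁆ ≤ F (i + j)`.
The cube construction `dbl F` is the filtration on `G × G` whose `k`-th term consists of the pairs
`(a, b)` with `a ∈ F k` and `a⁻¹ * b ∈ F (k + 1)`.  By induction on `m` this gives
`word_mem`: a word in letters `x 0, ..., x (m-1) ∈ F 1` and other letters in `F 0` which becomes
trivial whenever at least one of the `x i` is replaced by `1` has value in `F m`.
-/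

namespace Pool.CharExpP

open Subgroup
open scoped commutatorElement

universe u

/-- A filtration on a group. -/
structure IsFilt {G : Type u} [Group G] (F : ℕ → Subgroup G) : Prop where
  anti : ∀ i, F (i + 1) ≤ F i
  comm : ∀ i j, ⁅F i, F j⁆ ≤ F (i + j)

variable {G : Type u} [Group G] {F : ℕ → Subgroup G}

theorem IsFilt.conj_mem (hF : IsFilt F) {i : ℕ} {g x : G} (hg : g ∈ F 0) (hx : x ∈ F i) :
    g * x * g⁻¹ ∈ F i := by
  have h : ⁅g, x⁆ ∈ F (0 + i) := hF.comm 0 i (commutator_mem_commutator hg hx)
  rw [zero_add] at h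
  have : g * x * g⁻¹ = ⁅g, x⁆ * x := by
    rw [commutatorElement_def]; group
  rw [this]
  exact mul_mem h hx

theorem IsFilt.conj_mem' (hF : IsFilt F) {i : ℕ} {g x : G} (hg : g ∈ F 0) (hx : x ∈ F i) :
    g⁻¹ * x * g ∈ F i := by
  have := hF.conj_mem (inv_mem hg) hx
  rwa [inv_inv] at this

theorem IsFilt.anti_le (hF : IsFilt F) {i j : ℕ} (h : i ≤ j) : F j ≤ F i := by
  induction h with
  | refl => exact le_rfl
  | step _ ih => exact (hF.anti _).trans ih

/-- The doubled filtration. -/
def dbl (F : ℕ → Subgroup G) (hF : IsFilt F) (k : ℕ) : Subgroup (G × G) where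
  carrier := {q | q.1 ∈ F k ∧ q.1⁻¹ * q.2 ∈ F (k + 1)}
  one_mem' := by simp [one_mem]
  mul_mem' := by
    rintro ⟨a, b⟩ ⟨c, d⟩ ⟨h1, h2⟩ ⟨h3, h4⟩
    refine ⟨mul_mem h1 h3, ?_⟩
    show (a * c)⁻¹ * (b * d) ∈ F (k + 1)
    have : (a * c)⁻¹ * (b * d) = (c⁻¹ * (a⁻¹ * b) * c) * (c⁻¹ * d) := by group
    rw [this]
    exact mul_mem (hF.conj_mem' (hF.anti_le (Nat.zero_le k) h3) h2) h4
  inv_mem' := by
    rintro ⟨a, b⟩ ⟨h1, h2⟩
    refine ⟨inv_mem h1, ?_⟩
    show (a⁻¹)⁻¹ * b⁻¹ ∈ F (k + 1)
    have : (a⁻¹)⁻¹ * b⁻¹ = a * (a⁻¹ * b)⁻¹ * a⁻¹ := by group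
    rw [this]
    exact hF.conj_mem (hF.anti_le (Nat.zero_le k) h1) (inv_mem h2)

theorem mem_dbl {hF : IsFilt F} {k : ℕ} {q : G × G} :
    q ∈ dbl F hF k ↔ q.1 ∈ F k ∧ q.1⁻¹ * q.2 ∈ F (k + 1) := Iff.rfl

theorem dbl_isFilt (hF : IsFilt F) : IsFilt (dbl F hF) where
  anti := by
    rintro i ⟨a, b⟩ ⟨h1, h2⟩
    exact ⟨hF.anti i h1, hF.anti (i + 1) h2⟩
  comm := by
    intro i j
    rw [commutator_le]
    rintro ⟨a, b⟩ ⟨ha, hb⟩ ⟨c, d⟩ ⟨hc, hd⟩
    simp only at ha hb hc hd
    set a' := a⁻¹ * b with ha'
    set c' := c⁻¹ * d with hc'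
    have hbe : b = a * a' := by rw [ha']; group
    have hde : d = c * c' := by rw [hc']; group
    have h0a : a ∈ F 0 := hF.anti_le (Nat.zero_le i) ha
    have h0c : c ∈ F 0 := hF.anti_le (Nat.zero_le j) hc
    have hac : ⁅a, c⁆ ∈ F (i + j) := hF.comm i j (commutator_mem_commutator ha hc)
    have h0ac : ⁅a, c⁆ ∈ F 0 := hF.anti_le (Nat.zero_le _) hac
    have e1 : ⁅a', c⁆ ∈ F (i + j + 1) := by
      have := hF.comm (i + 1) j (commutator_mem_commutator hb hc)
      have e : i + 1 + j = i + j + 1 := by omega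
      rwa [e] at this
    have e2 : ⁅a, c'⁆ ∈ F (i + j + 1) := by
      have := hF.comm i (j + 1) (commutator_mem_commutator ha hd)
      have e : i + (j + 1) = i + j + 1 := by omega
      rwa [e] at this
    have e3 : ⁅a', c'⁆ ∈ F (i + j + 1) := by
      have := hF.comm (i + 1) (j + 1) (commutator_mem_commutator hb hd)
      have e : i + 1 + (j + 1) = (i + j + 1) + 1 := by omega
      rw [e] at this
      exact hF.anti _ this
    refine ⟨hac, ?_⟩
    show ⁅a, c⁆⁻¹ * ⁅b, d⁆ ∈ F (i + j + 1)
    have key : ⁅a, c⁆⁻¹ * ⁅b, d⁆ =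
        (⁅a, c⁆⁻¹ * (a * (⁅a', c⁆ * (c * ⁅a', c'⁆ * c⁻¹)) * a⁻¹) * ⁅a, c⁆) *
          (c * ⁅a, c'⁆ * c⁻¹) := by
      rw [hbe, hde]
      simp only [commutatorElement_def]
      group
    rw [key]
    refine mul_mem (hF.conj_mem' h0ac (hF.conj_mem h0a (mul_mem e1 (hF.conj_mem h0c e3)))) ?_
    exact hF.conj_mem h0c e2

/-- Evaluation of a word: the letters `inl i` with `i ∈ S` go to `x i`, the letters `inl i` with
`i ∉ S` go to `1` and the letters `inr j` go to `y j`. -/
noncomputable def evalOn {m : ℕ} {ι : Type} (x : Fin m → G) (y : ι → G) (S : Set (Fin m)) :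
    FreeGroup (Fin m ⊕ ι) →* G :=
  open scoped Classical in
  FreeGroup.lift (Sum.elim (fun i => if i ∈ S then x i else 1) y)

theorem word_mem (m : ℕ) : ∀ {G : Type u} [Group G] {F : ℕ → Subgroup G} (_ : IsFilt F)
    {ι : Type} (x : Fin m → G) (_ : ∀ i, x i ∈ F 1) (y : ι → G) (_ : ∀ j, y j ∈ F 0)
    (W : FreeGroup (Fin m ⊕ ι))
    (_ : ∀ S : Set (Fin m), S ≠ Set.univ → evalOn x y S W = 1),
    evalOn x y Set.univ W ∈ F m := by
  classical
  induction m with
  | zero =>
    intro G _ F hF ι x _ y hy W _
    have : (evalOn x y Set.univ).range ≤ F 0 := by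
      unfold evalOn
      apply FreeGroup.range_lift_le
      rintro _ ⟨a, rfl⟩
      rcases a with i | j
      · exact i.elim0
      · exact hy j
    exact this ⟨W, rfl⟩
  | succ m ih =>
    intro G _ F hF ι x hx y hy W hW
    let x' : Fin m → G × G := fun i => (x i.castSucc, x i.castSucc)
    let y' : Option ι → G × G := fun o => match o with
      | none => (1, x (Fin.last m))
      | some j => (y j, y j)
    have hx' : ∀ i, x' i ∈ dbl F hF 1 := by
      intro i
      refine ⟨hx _, ?_⟩
      show (x i.castSucc)⁻¹ * x i.castSucc ∈ _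
      rw [inv_mul_cancel]
      exact one_mem _
    have hy' : ∀ j, y' j ∈ dbl F hF 0 := by
      intro j
      rcases j with _ | j
      · refine ⟨one_mem _, ?_⟩
        show (1 : G)⁻¹ * x (Fin.last m) ∈ _
        rw [inv_one, one_mul]
        exact hx _
      · refine ⟨hy j, ?_⟩
        show (y j)⁻¹ * y j ∈ _
        rw [inv_mul_cancel]
        exact one_mem _
    let φ : Fin (m + 1) ⊕ ι → Fin m ⊕ Option ι := fun a => match a with
      | Sum.inl i => if h : i = Fin.last m then Sum.inr none else Sum.inl (i.castPred h)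
      | Sum.inr j => Sum.inr (some j)
    let W' : FreeGroup (Fin m ⊕ Option ι) := FreeGroup.map φ W
    -- the two coordinates
    have hfst : ∀ S : Set (Fin m), (evalOn x' y' S W').1 =
        evalOn x y (Fin.castSucc '' S) W := by
      intro S
      have : (MonoidHom.fst G G).comp ((evalOn x' y' S).comp (FreeGroup.map φ)) =
          evalOn x y (Fin.castSucc '' S) := by
        apply FreeGroup.ext_hom
        rintro (i | j)
        · simp only [MonoidHom.comp_apply, FreeGroup.map.of, evalOn, FreeGroup.lift_apply_of, φ]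
          by_cases h : i = Fin.last m
          · subst h
            have h1 : Fin.last m ∉ Fin.castSucc '' S := by
              rintro ⟨a, _, ha⟩
              exact absurd ha (Fin.castSucc_lt_last a).ne
            simp [y', h1]
          · obtain ⟨k, rfl⟩ : ∃ k : Fin m, i = k.castSucc := ⟨i.castPred h, by simp⟩
            have h2 : k.castSucc ∈ Fin.castSucc '' S ↔ k ∈ S := by
              constructor
              · rintro ⟨a, ha, hak⟩
                rwa [← Fin.castSucc_injective m hak]
              · intro h; exact ⟨k, h, rfl⟩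
            by_cases hk : k ∈ S
            · simp [h, hk, x', h2]
            · simp [h, hk, h2]
        · simp [MonoidHom.comp_apply, evalOn, φ, y']
      exact DFunLike.congr_fun this W
    have hsnd : ∀ S : Set (Fin m), (evalOn x' y' S W').2 =
        evalOn x y (insert (Fin.last m) (Fin.castSucc '' S)) W := by
      intro S
      have : (MonoidHom.snd G G).comp ((evalOn x' y' S).comp (FreeGroup.map φ)) =
          evalOn x y (insert (Fin.last m) (Fin.castSucc '' S)) := by
        apply FreeGroup.ext_hom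
        rintro (i | j)
        · simp only [MonoidHom.comp_apply, FreeGroup.map.of, evalOn, FreeGroup.lift_apply_of, φ]
          by_cases h : i = Fin.last m
          · subst h
            simp [y']
          · obtain ⟨k, rfl⟩ : ∃ k : Fin m, i = k.castSucc := ⟨i.castPred h, by simp⟩
            have h2 : k.castSucc ∈ insert (Fin.last m) (Fin.castSucc '' S) ↔ k ∈ S := by
              constructor
              · rintro (h3 | ⟨a, ha, hak⟩)
                · exact absurd h3 h
                · rwa [← Fin.castSucc_injective m hak]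
              · intro h; exact Or.inr ⟨k, h, rfl⟩
            by_cases hk : k ∈ S
            · simp only [h, dite_false, Sum.elim_inl, hk, h2, if_true]
              simp [x', hk]
            · simp only [h, dite_false, Sum.elim_inl, h2, hk, if_false]
              simp [hk]
        · simp [MonoidHom.comp_apply, evalOn, φ, y']
      exact DFunLike.congr_fun this W
    have hlast : ∀ S : Set (Fin m), Fin.last m ∉ Fin.castSucc '' S := by
      rintro S ⟨a, _, ha⟩
      exact absurd ha (Fin.castSucc_lt_last a).ne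
    have hW' : ∀ S : Set (Fin m), S ≠ Set.univ → evalOn x' y' S W' = 1 := by
      intro S hS
      apply Prod.ext
      · rw [hfst]
        apply hW
        intro h
        exact hlast S (h ▸ Set.mem_univ _)
      · rw [hsnd]
        apply hW
        intro h
        apply hS
        ext k
        refine ⟨fun _ => trivial, fun _ => ?_⟩
        have : k.castSucc ∈ insert (Fin.last m) (Fin.castSucc '' S) := h ▸ Set.mem_univ _
        rcases this with h3 | ⟨a, ha, hak⟩
        · exact absurd h3 (Fin.castSucc_lt_last k).ne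
        · rwa [← Fin.castSucc_injective m hak]
    have hres := ih (dbl_isFilt hF) x' hx' y' hy' W' hW'
    have h1 : (evalOn x' y' Set.univ W').1 = 1 := by
      rw [hfst]
      apply hW
      intro h
      exact hlast Set.univ (h ▸ Set.mem_univ _)
    have h2 : (evalOn x' y' Set.univ W').2 = evalOn x y Set.univ W := by
      rw [hsnd]
      have : insert (Fin.last m) (Fin.castSucc '' (Set.univ : Set (Fin m))) = Set.univ := by
        ext k
        refine ⟨fun _ => trivial, fun _ => ?_⟩
        by_cases h : k = Fin.last m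
        · exact Or.inl h
        · exact Or.inr ⟨k.castPred h, trivial, by simp⟩
      rw [this]
    have h3 := hres.2
    rw [h1, h2, inv_one, one_mul] at h3
    exact h3

end Pool.CharExpP
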