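import Mathlib

/-!
# Definitions for the results on MP_a092f6_al
-/

namespace Pool.CharExpP

/-- `n` independent subgroups of index `p` and exponent `p`: each `H i` has index `p`, all its
elements satisfy `h ^ p = 1`, and the intersection of the `H i` has index `p ^ n`. -/
structure IndepMax (p n : ℕ) (G : Type) [Group G] (H : Fin n → Subgroup G) : Prop where
  index : ∀ i, (H i).index = p
  exp : ∀ i, ∀ h ∈ H i, h ^ p = 1
  inf : (⨅ i, H i).index = p ^ n

/-- Every finite `p`-group with `n` independent subgroups of index `p` and exponent `p` has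
exponent `p`. -/
def Forces (p n : ℕ) : Prop :=
  ∀ (G : Type) [Group G] [Finite G], IsPGroup p G → ∀ H : Fin n → Subgroup G,
    IndepMax p n G H → ∀ g : G, g ^ p = 1

/-- Every finite `p`-group with a subgroup of index `p` and exponent `p` has a characteristic
subgroup of exponent `p` and index at most `N`. -/
def Bound (p N : ℕ) : Prop :=
  ∀ (G : Type) [Group G] [Finite G], IsPGroup p G →
    (∃ H : Subgroup G, H.index = p ∧ ∀ h ∈ H, h ^ p = 1) →
    ∃ K : Subgroup G, K.Characteristic ∧ (∀ k ∈ K, k ^ p = 1) ∧ K.index ≤ N

end Pool.CharExpP
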