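import Mathlib

/-!
# Groups of exponent three are nilpotent of class at most three (Levi, van der Waerden)
-/

namespace Pool.CharExpP

open Subgroup
open scoped commutatorElement

universe u

variable {T : Type u} [Group T]

theorem exp3_commute_conj (h3 : ∀ x : T, x ^ 3 = 1) (x y : T) : Commute x (y⁻¹ * x * y) := by
  have h1 : x * y * x = y⁻¹ * x⁻¹ * y⁻¹ := by
    have := h3 (x * y)
    have e : (x * y) ^ 3 = (x * y * x) * (y * x * y) := by
      simp only [pow_succ, pow_zero, one_mul, mul_assoc]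
    rw [e] at this
    rw [eq_inv_of_mul_eq_one_left this]
    group
  have h2 : x * y⁻¹ * x = y * x⁻¹ * y := by
    have := h3 (x * y⁻¹)
    have e : (x * y⁻¹) ^ 3 = (x * y⁻¹ * x) * (y⁻¹ * x * y⁻¹) := by
      simp only [pow_succ, pow_zero, one_mul, mul_assoc]
    rw [e] at this
    rw [eq_inv_of_mul_eq_one_left this]
    group
  have hy : y * y = y⁻¹ := by
    have := h3 y
    rw [pow_succ, pow_two] at this
    exact eq_inv_of_mul_eq_one_left this
  have hy' : y⁻¹ * y⁻¹ = y := by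
    rw [← mul_inv_rev, hy, inv_inv]
  show x * (y⁻¹ * x * y) = (y⁻¹ * x * y) * x
  calc x * (y⁻¹ * x * y) = (x * y⁻¹ * x) * y := by group
    _ = y * x⁻¹ * (y * y) := by rw [h2]; group
    _ = (y⁻¹ * y⁻¹) * x⁻¹ * y⁻¹ := by rw [hy, hy']
    _ = y⁻¹ * (x * y * x) := by rw [h1]; group
    _ = (y⁻¹ * x * y) * x := by group

theorem exp3_commute_conj' (h3 : ∀ x : T, x ^ 3 = 1) (x y : T) : Commute x (y * x * y⁻¹) := by
  have := exp3_commute_conj h3 x y⁻¹
  rwa [inv_inv] at this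

/-- The 2-Engel law. -/
theorem exp3_engel (h3 : ∀ x : T, x ^ 3 = 1) (x y : T) : ⁅x, ⁅x, y⁆⁆ = 1 := by
  rw [commutatorElement_eq_one_iff_commute]
  have e : ⁅x, y⁆ = x * (y * x * y⁻¹)⁻¹ := by rw [commutatorElement_def]; group
  rw [e]
  exact (Commute.refl x).mul_right (exp3_commute_conj' h3 x y).inv_right

theorem exp3_closure_comm (h3 : ∀ x : T, x ^ 3 = 1) (x : T)
    (a b : normalClosure ({x} : Set T)) : a * b = b * a := by
  have key : ∀ u ∈ Group.conjugatesOfSet ({x} : Set T),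
      ∀ v ∈ Group.conjugatesOfSet ({x} : Set T), u * v = v * u := by
    intro u hu v hv
    rw [Group.mem_conjugatesOfSet_iff] at hu hv
    obtain ⟨x1, hx1, hu⟩ := hu
    obtain ⟨x2, hx2, hv⟩ := hv
    rw [Set.mem_singleton_iff] at hx1 hx2
    subst hx1
    subst hx2
    rw [isConj_iff] at hu hv
    obtain ⟨c, rfl⟩ := hu
    obtain ⟨d, rfl⟩ := hv
    have h1 := (exp3_commute_conj' h3 x2 (c⁻¹ * d)).eq
    have e1 : c * x2 * c⁻¹ * (d * x2 * d⁻¹) =
        c * (x2 * ((c⁻¹ * d) * x2 * (c⁻¹ * d)⁻¹)) * c⁻¹ := by group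
    rw [e1, h1]
    group
  have h2 : ∀ u ∈ normalClosure ({x} : Set T), ∀ v ∈ normalClosure ({x} : Set T),
      u * v = v * u := by
    intro u hu v hv
    have h4 : normalClosure ({x} : Set T) ≤
        centralizer (Group.conjugatesOfSet ({x} : Set T)) := by
      rw [normalClosure, closure_le]
      intro w hw
      rw [SetLike.mem_coe, mem_centralizer_iff]
      intro w' hw'
      exact key _ hw' _ hw
    have h5 : normalClosure ({x} : Set T) ≤ centralizer (normalClosure ({x} : Set T) : Set T) := by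
      have : (normalClosure ({x} : Set T)) ≤
          centralizer ((closure (Group.conjugatesOfSet ({x} : Set T)) : Subgroup T) : Set T) := by
        rw [centralizer_closure]
        refine le_trans h4 ?_
        rw [centralizer_eq_iInf]
      exact this
    exact (mem_centralizer_iff.mp (h5 hv)) u hu
  exact Subtype.ext (h2 _ a.2 _ b.2)

/-- `⁅g, ⁅h, x⁆⁆ = ⁅h, ⁅g, x⁆⁆⁻¹` and `⁅g, x⁻¹⁆ = ⁅g, x⁆⁻¹` in a group of exponent three. -/
theorem exp3_anti (h3 : ∀ x : T, x ^ 3 = 1) (g h x : T) :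
    ⁅g, ⁅h, x⁆⁆ = ⁅h, ⁅g, x⁆⁆⁻¹ ∧ ⁅g, x⁻¹⁆ = ⁅g, x⁆⁻¹ := by
  let N := normalClosure ({x} : Set T)
  let _ : CommGroup N := { (inferInstance : Group N) with mul_comm := exp3_closure_comm h3 x }
  let E : T → AddMonoid.End (Additive N) := fun g =>
    MonoidHom.toAdditive ((MulAut.conjNormal g : MulAut N).toMonoidHom)
  have hE : ∀ g h, E (g * h) = E g * E h := by
    intro g h
    ext n
    simp only [E, map_mul]
    rfl
  have hEinv : ∀ g, E g * E g⁻¹ = 1 := by
    intro g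
    rw [← hE, mul_inv_cancel]
    ext n
    simp only [E, map_one]
    rfl
  let D : T → AddMonoid.End (Additive N) := fun g => E g - 1
  have hDval : ∀ (g : T) (n : N), ((Additive.toMul (D g (Additive.ofMul n)) : N) : T) =
      ⁅g, (n : T)⁆ := by
    intro g n
    have : Additive.toMul (D g (Additive.ofMul n)) = (MulAut.conjNormal g n) * n⁻¹ := by
      rw [← div_eq_mul_inv]
      rfl
    rw [this]
    simp [commutatorElement_def, MulAut.conjNormal_apply]
  have hDD : ∀ g, D g * D g = 0 := by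
    intro g
    ext n
    have h1 : ((Additive.toMul (D g (D g n)) : N) : T) = 1 := by
      have h4 := hDval g (Additive.toMul (D g n))
      have h5 := hDval g (Additive.toMul n)
      simp only [ofMul_toMul] at h4 h5
      rw [h4, h5]
      exact exp3_engel h3 g _
    simpa using h1
  have hD : ∀ g h, D (g * h) = D g * D h + D g + D h := by
    intro g h
    simp only [D, hE, sub_mul, mul_sub, one_mul, mul_one]
    abel
  have hsq := hDD (g * h)
  rw [hD] at hsq
  have hg := hDD g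
  have hh := hDD h
  have hsq' : D g * D h * D g * D h + D g * D h * D g + D g * D h + D h * D g * D h +
      D h * D g = 0 := by
    have : (D g * D h + D g + D h) * (D g * D h + D g + D h) =
        (D g * D h * D g * D h + D g * D h * D g + D g * D h + D h * D g * D h + D h * D g) +
        (D g * (D h * D h) + (D g * D g) * D h + D g * D g + D h * D h) := by
      noncomm_ring
    rw [this, hg, hh] at hsq
    simpa using hsq
  have h4 : D g * D h * D g * E h = 0 := by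
    have h5 : D g * (D g * D h * D g * D h + D g * D h * D g + D g * D h + D h * D g * D h +
      D h * D g) = 0 := by rw [hsq', mul_zero]
    have h6 : D g * (D g * D h * D g * D h + D g * D h * D g + D g * D h + D h * D g * D h +
      D h * D g) = (D g * D g) * (D h * D g * D h + D h * D g + D h) +
        D g * D h * D g * (D h + 1) := by noncomm_ring
    rw [h6, hg, zero_mul, zero_add] at h5
    have : D h + 1 = E h := by simp [D]
    rwa [this] at h5
  have h5 : D g * D h * D g = 0 := by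
    have := congrArg (· * E h⁻¹) h4
    simp only [zero_mul] at this
    rwa [mul_assoc, hEinv, mul_one] at this
  have h4' : D h * D g * D h = 0 := by
    have h7 : (D g * D h * D g * D h + D g * D h * D g + D g * D h + D h * D g * D h +
      D h * D g) * D h = 0 := by rw [hsq', zero_mul]
    have h6 : (D g * D h * D g * D h + D g * D h * D g + D g * D h + D h * D g * D h +
      D h * D g) * D h = (D g * D h * D g + D g + D h * D g) * (D h * D h) +
        (D g * D h * D g) * D h + D h * D g * D h := by noncomm_ring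
    rw [h6, hh, h5] at h7
    simpa using h7
  have h8 : D g * D h = - (D h * D g) := by
    rw [h5, h4', zero_mul] at hsq'
    simp only [zero_add, add_zero] at hsq'
    exact eq_neg_of_add_eq_zero_left hsq'
  have hxN : x ∈ N := subset_normalClosure (Set.mem_singleton x)
  let ξ : N := ⟨x, hxN⟩
  have v1 : ∀ g h : T, ((Additive.toMul ((D g * D h) (Additive.ofMul ξ)) : N) : T) =
      ⁅g, ⁅h, x⁆⁆ := by
    intro g h
    have h9 := hDval g (Additive.toMul (D h (Additive.ofMul ξ)))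
    have h10 := hDval h ξ
    simp only [ofMul_toMul] at h9
    have h11 : (D g * D h) (Additive.ofMul ξ) = D g (D h (Additive.ofMul ξ)) := rfl
    rw [h11, h9, h10]
  refine ⟨?_, ?_⟩
  · rw [← v1 g h, h8, ← v1 h g]
    rfl
  · have h9 := hDval g ξ⁻¹
    have h10 := hDval g ξ
    have : (Additive.ofMul ξ⁻¹ : Additive N) = - Additive.ofMul ξ := rfl
    rw [this, map_neg] at h9
    have e : (((ξ⁻¹ : N)) : T) = x⁻¹ := rfl
    rw [e] at h9
    rw [← h9, show ⁅g, x⁆ = ⁅g, (ξ : T)⁆ from rfl, ← h10]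
    simp

theorem exp3_four (h3 : ∀ x : T, x ^ 3 = 1) (g h k x : T) : ⁅g, ⁅h, ⁅k, x⁆⁆⁆ = 1 := by
  have s1 : ∀ a b c d : T, ⁅b, ⁅a, ⁅c, d⁆⁆⁆ = ⁅a, ⁅b, ⁅c, d⁆⁆⁆⁻¹ := fun a b c d =>
    (exp3_anti h3 b a ⁅c, d⁆).1
  have s2 : ∀ a b c d : T, ⁅a, ⁅c, ⁅b, d⁆⁆⁆ = ⁅a, ⁅b, ⁅c, d⁆⁆⁆⁻¹ := fun a b c d => by
    rw [(exp3_anti h3 c b d).1, (exp3_anti h3 a 1 _).2]
  have s3 : ∀ a b c d : T, ⁅a, ⁅b, ⁅d, c⁆⁆⁆ = ⁅a, ⁅b, ⁅c, d⁆⁆⁆⁻¹ := fun a b c d => by
    rw [← commutatorElement_inv c d, (exp3_anti h3 b 1 _).2, (exp3_anti h3 a 1 _).2]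
  -- antisymmetry of the triple commutator
  have c3 : ∀ a b c : T, ⁅a, ⁅b, c⁆⁆ = ⁅c, ⁅a, b⁆⁆ := by
    intro a b c
    rw [(exp3_anti h3 c a b).1, ← commutatorElement_inv b c, (exp3_anti h3 a 1 _).2,
      inv_inv]
  have f1 : ⁅g, ⁅h, ⁅k, x⁆⁆⁆ = ⁅⁅k, x⁆, ⁅g, h⁆⁆ := c3 g h ⁅k, x⁆
  have f2 : ⁅k, ⁅x, ⁅g, h⁆⁆⁆ = ⁅⁅g, h⁆, ⁅k, x⁆⁆ := c3 k x ⁅g, h⁆
  have f3 : ⁅k, ⁅x, ⁅g, h⁆⁆⁆ = ⁅g, ⁅h, ⁅k, x⁆⁆⁆ := by
    rw [s2 k g x h, s3 k g h x, s1 g k h x, s2 g h k x]
    simp only [inv_inv]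
  have f4 : ⁅g, ⁅h, ⁅k, x⁆⁆⁆ = ⁅g, ⁅h, ⁅k, x⁆⁆⁆⁻¹ := by
    conv_rhs => rw [f1, commutatorElement_inv]
    rw [← f2, f3]
  have f5 := h3 ⁅g, ⁅h, ⁅k, x⁆⁆⁆
  have f6 : ⁅g, ⁅h, ⁅k, x⁆⁆⁆ * ⁅g, ⁅h, ⁅k, x⁆⁆⁆ = 1 := by
    nth_rewrite 2 [f4]
    rw [mul_inv_cancel]
  rw [pow_succ, pow_two, f6, one_mul] at f5
  exact f5

theorem exp3_class (h3 : ∀ x : T, x ^ 3 = 1) :
    (⊤ : Subgroup T).lowerCentralSeries 3 = ⊥ := by
  rw [lowerCentralSeries_eq_bot_iff_upperCentralSeries_eq_top, eq_top_iff]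
  intro x _
  have key : ∀ k h g : T, ⁅⁅⁅x, k⁆, h⁆, g⁆ = 1 := by
    intro k h g
    rw [← commutatorElement_inv g, ← commutatorElement_inv h, (exp3_anti h3 g 1 _).2,
      exp3_four h3, inv_one, inv_one]
  have h0 : ∀ y : T, y = 1 → y ∈ Subgroup.upperCentralSeries T 0 := by
    rintro y rfl
    exact one_mem _
  exact fun k h g => h0 _ (key k h g)

end Pool.CharExpP
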