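import Pool.Agent.Lib.CharExpP.Cube

/-!
# Independent families of subgroups of index `p` and exponent `p`
-/

namespace Pool.CharExpP

open Subgroup
open scoped commutatorElement

universe u

variable {G : Type u} [Group G]

/-- The three subgroups lemma for normal subgroups, in the form of an inequality. -/
theorem three_subgroups (A B C : Subgroup G) [A.Normal] [B.Normal] [C.Normal] :
    ⁅⁅A, B⁆, C⁆ ≤ ⁅⁅B, C⁆, A⁆ ⊔ ⁅⁅C, A⁆, B⁆ := by
  set N : Subgroup G := ⁅⁅B, C⁆, A⁆ ⊔ ⁅⁅C, A⁆, B⁆ with hN
  have hNn : N.Normal := by rw [hN]; infer_instance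
  let π := QuotientGroup.mk' N
  have h1 : ⁅⁅B.map π, C.map π⁆, A.map π⁆ = ⊥ := by
    rw [← map_commutator, ← map_commutator, eq_bot_iff, map_le_iff_le_comap,
      MonoidHom.comap_bot, QuotientGroup.ker_mk']
    exact le_sup_left
  have h2 : ⁅⁅C.map π, A.map π⁆, B.map π⁆ = ⊥ := by
    rw [← map_commutator, ← map_commutator, eq_bot_iff, map_le_iff_le_comap,
      MonoidHom.comap_bot, QuotientGroup.ker_mk']
    exact le_sup_right
  have h3 := commutator_commutator_eq_bot_of_rotate h1 h2
  rw [← map_commutator, ← map_commutator, eq_bot_iff, map_le_iff_le_comap,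
    MonoidHom.comap_bot, QuotientGroup.ker_mk'] at h3
  exact h3

theorem lcs_comm_le (i j : ℕ) :
    ⁅(⊤ : Subgroup G).lowerCentralSeries i, (⊤ : Subgroup G).lowerCentralSeries j⁆ ≤
      (⊤ : Subgroup G).lowerCentralSeries (i + j + 1) := by
  induction j generalizing i with
  | zero => exact le_of_eq (Subgroup.lowerCentralSeries_succ (⊤ : Subgroup G) i).symm
  | succ j ih =>
    have e : (⊤ : Subgroup G).lowerCentralSeries (j + 1) =
        ⁅(⊤ : Subgroup G).lowerCentralSeries j, (⊤ : Subgroup G)⁆ :=
      Subgroup.lowerCentralSeries_succ (⊤ : Subgroup G) j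
    rw [e, commutator_comm]
    refine (three_subgroups _ _ _).trans (sup_le ?_ ?_)
    · rw [commutator_comm ⊤]
      have e2 : ⁅(⊤ : Subgroup G).lowerCentralSeries i, (⊤ : Subgroup G)⁆ =
        (⊤ : Subgroup G).lowerCentralSeries (i + 1) :=
        (Subgroup.lowerCentralSeries_succ (⊤ : Subgroup G) i).symm
      rw [e2]
      have := ih (i + 1)
      have e3 : i + 1 + j + 1 = i + (j + 1) + 1 := by omega
      rwa [e3] at this
    · refine (commutator_mono (ih i) le_rfl).trans ?_
      have e3 : i + (j + 1) + 1 = (i + j + 1) + 1 := by omega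
      rw [e3]
      exact le_of_eq (Subgroup.lowerCentralSeries_succ (⊤ : Subgroup G) _).symm

/-- The lower central series with the indexing `F 0 = F 1 = ⊤`. -/
def lcsF (G : Type u) [Group G] : ℕ → Subgroup G
  | 0 => ⊤
  | k + 1 => (⊤ : Subgroup G).lowerCentralSeries k

theorem lcsF_isFilt (G : Type u) [Group G] : IsFilt (lcsF G) where
  anti := by
    intro i
    cases i with
    | zero => exact le_top
    | succ i => exact Subgroup.lowerCentralSeries_antitone (⊤ : Subgroup G) (Nat.le_succ i)
  comm := by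
    intro i j
    cases i with
    | zero =>
      rw [zero_add]
      cases j with
      | zero => exact le_top
      | succ j =>
        have : (lcsF G (j + 1)).Normal := by unfold lcsF; infer_instance
        exact commutator_le_right _ _
    | succ i =>
      cases j with
      | zero =>
        have : (lcsF G (i + 1)).Normal := by unfold lcsF; infer_instance
        exact commutator_le_left _ _
      | succ j =>
        have := lcs_comm_le (G := G) i j
        have e : i + 1 + (j + 1) = (i + j + 1) + 1 := by omega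
        rw [e]
        exact this

/-- If every product of `x 0, ..., x (n - 1)` with at least one factor omitted lies in a subgroup
all of whose elements have trivial `p`-th power, and `γ_n(G) = 1`, then the product of all
the `x i` has trivial `p`-th power. -/
theorem prod_pow_eq_one {p n : ℕ} (hn : lcsF G n = ⊥) (H : Fin n → Subgroup G)
    (hH : ∀ i, ∀ h ∈ H i, h ^ p = 1) (x : Fin n → G) (hx : ∀ i j, i ≠ j → x i ∈ H j) :
    (List.ofFn x).prod ^ p = 1 := by
  classical
  let W : FreeGroup (Fin n ⊕ Empty) :=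
    (List.ofFn (fun i : Fin n => FreeGroup.of (Sum.inl i))).prod ^ p
  have hev : ∀ S : Set (Fin n), evalOn x (Empty.elim : Empty → G) S W =
      (List.ofFn (fun i => if i ∈ S then x i else 1)).prod ^ p := by
    intro S
    simp only [W, map_pow, map_list_prod, List.map_ofFn]
    congr 3
    funext i
    simp [evalOn]
  have := word_mem n (lcsF_isFilt G) x (fun i => mem_top _) (Empty.elim : Empty → G)
    (fun j => j.elim) W (by
      intro S hS
      obtain ⟨i, hi⟩ : ∃ i, i ∉ S := by
        by_contra h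
        push Not at h
        exact hS (Set.eq_univ_of_forall h)
      rw [hev]
      apply hH i
      apply list_prod_mem
      intro a ha
      rw [List.mem_ofFn] at ha
      obtain ⟨j, rfl⟩ := ha
      by_cases hj : j ∈ S
      · rw [if_pos hj]
        exact hx j i (by rintro rfl; exact hi hj)
      · rw [if_neg hj]; exact one_mem _)
  rw [hev, hn, mem_bot] at this
  simpa using this

/-- `H 0, ..., H (n-1)` is an independent family: for every `i` there is an element outside `H i`
which lies in all the other members. -/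
def Indep {n : ℕ} (H : Fin n → Subgroup G) : Prop :=
  ∀ i, ∃ y, y ∉ H i ∧ ∀ j, j ≠ i → y ∈ H j

theorem exists_zpow {p : ℕ} (hp : p.Prime) {H : Subgroup G} [H.Normal] (hi : H.index = p)
    {d : G} (hd : d ∉ H) (g : G) : ∃ m : ℤ, g * d ^ m ∈ H := by
  have : Fact p.Prime := ⟨hp⟩
  have hc : Nat.card (G ⧸ H) = p := hi
  have h1 : ((d : G) : G ⧸ H) ≠ 1 := by
    rwa [Ne, QuotientGroup.eq_one_iff]
  have h2 := zpowers_eq_top_of_prime_card hc h1
  have h3 : ((g⁻¹ : G) : G ⧸ H) ∈ zpowers ((d : G) : G ⧸ H) := by rw [h2]; exact mem_top _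
  obtain ⟨m, hm⟩ := mem_zpowers_iff.mp h3
  refine ⟨m, ?_⟩
  rw [← QuotientGroup.eq_one_iff, QuotientGroup.mk_mul, QuotientGroup.mk_zpow, hm,
    QuotientGroup.mk_inv, mul_inv_cancel]

theorem ofFn_prod_mem_mk {n : ℕ} (N : Subgroup G) [N.Normal] (x : Fin n → G) (i : Fin n)
    (hx : ∀ j, j ≠ i → x j ∈ N) : (((List.ofFn x).prod : G) : G ⧸ N) = ((x i : G) : G ⧸ N) := by
  induction n with
  | zero => exact i.elim0
  | succ n ih =>
    rw [List.ofFn_succ, List.prod_cons, QuotientGroup.mk_mul]
    by_cases hi : i = 0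
    · subst hi
      have : ((((List.ofFn fun i : Fin n => x i.succ).prod : G)) : G ⧸ N) = 1 := by
        rw [QuotientGroup.eq_one_iff]
        apply list_prod_mem
        intro a ha
        rw [List.mem_ofFn] at ha
        obtain ⟨j, rfl⟩ := ha
        exact hx _ (Fin.succ_ne_zero j)
      rw [this, mul_one]
    · obtain ⟨k, rfl⟩ := Fin.exists_succ_eq.mpr hi
      have h0 : ((x 0 : G) : G ⧸ N) = 1 := by
        rw [QuotientGroup.eq_one_iff]
        exact hx 0 (Ne.symm hi)
      rw [h0, one_mul]
      exact ih (fun j => x j.succ) k (fun j hj => hx _ (by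
        intro h; exact hj (Fin.succ_injective _ h)))

/-- Every element is a product of elements `x i` with `x i ∈ H j` for all `j ≠ i`. -/
theorem exists_factorisation {p n : ℕ} (hp : p.Prime) (hn : 0 < n) {H : Fin n → Subgroup G}
    (hN : ∀ i, (H i).Normal) (hi : ∀ i, (H i).index = p) (hI : Indep H) (g : G) :
    ∃ x : Fin n → G, (∀ i j, i ≠ j → x i ∈ H j) ∧ (List.ofFn x).prod = g := by
  choose y hy1 hy2 using hI
  have h1 : ∀ i, ∃ m : ℤ, g * (y i) ^ m ∈ H i := fun i =>
    have := hN i
    exists_zpow hp (hi i) (hy1 i) g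
  choose m hm using h1
  obtain ⟨n, rfl⟩ := Nat.exists_eq_succ_of_ne_zero hn.ne'
  let w : Fin (n + 1) → G := fun i => (y i) ^ (-(m i))
  have hw : ∀ i j, i ≠ j → w i ∈ H j := fun i j hij => zpow_mem (hy2 i j (Ne.symm hij)) _
  set W := (List.ofFn w).prod with hW
  have hgW : ∀ i, g * W⁻¹ ∈ H i := by
    intro i
    have := hN i
    rw [← QuotientGroup.eq_one_iff, QuotientGroup.mk_mul, QuotientGroup.mk_inv,
      hW, ofFn_prod_mem_mk (H i) w i (fun j hj => hw j i hj)]
    have := hm i
    rw [← QuotientGroup.eq_one_iff, QuotientGroup.mk_mul, QuotientGroup.mk_zpow] at this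
    simp only [w, zpow_neg, QuotientGroup.mk_inv, QuotientGroup.mk_zpow, inv_inv]
    exact this
  refine ⟨Fin.cons (g * W⁻¹ * w 0) (fun i => w i.succ), ?_, ?_⟩
  · intro i j hij
    refine Fin.cases ?_ (fun i => ?_) i hij
    · intro h0
      rw [Fin.cons_zero]
      exact mul_mem (hgW j) (hw 0 j h0)
    · intro h0
      rw [Fin.cons_succ]
      exact hw _ _ h0
  · rw [List.ofFn_succ, List.prod_cons]
    simp only [Fin.cons_zero, Fin.cons_succ]
    have : W = w 0 * (List.ofFn fun i : Fin n => w i.succ).prod := by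
      rw [hW, List.ofFn_succ, List.prod_cons]
    rw [this]
    group

/-- A group of class less than `n` (that is `γ_n(G) = 1`) with `n` independent
normal subgroups of index `p` and exponent `p` has exponent `p`. -/
theorem exponent_of_indep {p n : ℕ} (hp : p.Prime) (hn : 0 < n) (hc : lcsF G n = ⊥)
    {H : Fin n → Subgroup G} (hN : ∀ i, (H i).Normal) (hi : ∀ i, (H i).index = p)
    (hH : ∀ i, ∀ h ∈ H i, h ^ p = 1) (hI : Indep H) (g : G) : g ^ p = 1 := by
  obtain ⟨x, hx, rfl⟩ := exists_factorisation hp hn hN hi hI g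
  exact prod_pow_eq_one hc H hH x hx

/-- Enlarging an independent family. -/
theorem indep_extend {p n : ℕ} (hp : p.Prime) {H : Fin n → Subgroup G}
    (hI : Indep H) {H' : Subgroup G} [H'.Normal] (hi' : H'.index = p) {d : G}
    (hd : ∀ i, d ∈ H i) (hd' : d ∉ H') : Indep (Fin.cons H' H : Fin (n + 1) → Subgroup G) := by
  intro i
  refine Fin.cases ?_ (fun i => ?_) i
  · refine ⟨d, by simpa using hd', ?_⟩
    intro j hj
    obtain ⟨k, rfl⟩ := Fin.exists_succ_eq.mpr hj
    simpa using hd k
  · obtain ⟨y, hy1, hy2⟩ := hI i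
    obtain ⟨m, hm⟩ := exists_zpow hp hi' hd' y
    refine ⟨y * d ^ m, ?_, ?_⟩
    · simp only [Fin.cons_succ]
      intro h
      exact hy1 ((mul_mem_cancel_right (zpow_mem (hd i) m)).mp h)
    · intro j
      refine Fin.cases ?_ (fun j => ?_) j
      · intro _
        simpa using hm
      · intro hj
        simp only [Fin.cons_succ]
        exact mul_mem (hy2 j (by rintro rfl; exact hj rfl)) (zpow_mem (hd j) m)

theorem index_iInf_le_pow {p n : ℕ} {H : Fin n → Subgroup G} (hi : ∀ i, (H i).index = p) :
    (⨅ i, H i).index ≤ p ^ n := by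
  refine (index_iInf_le H).trans ?_
  simp [hi]

/-- If the intersection `K` of a set `𝓗` of normal subgroups of index `p` has index greater than
`p ^ k`, then `𝓗` contains `k + 1` independent members. -/
theorem exists_indep {p : ℕ} (hp : p.Prime) (𝓗 : Set (Subgroup G))
    (hN : ∀ H ∈ 𝓗, H.Normal) (hi : ∀ H ∈ 𝓗, H.index = p) (k : ℕ)
    (hk : p ^ k < (sInf 𝓗).index) :
    ∃ H : Fin (k + 1) → Subgroup G, (∀ i, H i ∈ 𝓗) ∧ Indep H := by
  induction k with
  | zero =>
    have : sInf 𝓗 ≠ ⊤ := by
      intro h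
      rw [h] at hk
      simp at hk
    obtain ⟨H, hH⟩ : ∃ H, H ∈ 𝓗 := by
      by_contra h
      push Not at h
      exact this (by rw [Set.eq_empty_of_forall_notMem h, sInf_empty])
    refine ⟨fun _ => H, fun _ => hH, ?_⟩
    intro i
    obtain ⟨y, hy⟩ : ∃ y, y ∉ H := by
      by_contra h
      push Not at h
      have h2 := hi H hH
      rw [(eq_top_iff' H).mpr h, index_top] at h2
      exact hp.one_lt.ne h2
    exact ⟨y, hy, fun j hj => absurd (Subsingleton.elim (α := Fin 1) j i) hj⟩
  | succ k ih =>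
    obtain ⟨H, hH, hI⟩ := ih (lt_of_le_of_lt (Nat.pow_le_pow_right hp.pos (Nat.le_succ k)) hk)
    have h1 : (⨅ i, H i).index ≤ p ^ (k + 1) := index_iInf_le_pow (fun i => hi _ (hH i))
    have h2 : ¬ (⨅ i, H i) ≤ sInf 𝓗 := by
      intro h
      have h3 : sInf 𝓗 = ⨅ i, H i :=
        le_antisymm (le_iInf fun i => sInf_le (hH i)) h
      rw [h3] at hk
      omega
    rw [le_sInf_iff] at h2
    push Not at h2
    obtain ⟨H', hH', h3⟩ := h2
    obtain ⟨d, hd, hd'⟩ := Set.not_subset.mp h3
    have := hN H' hH'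
    refine ⟨Fin.cons H' H, ?_, indep_extend hp hI (hi H' hH') (fun i => (mem_iInf.mp hd) i) hd'⟩
    intro i
    refine Fin.cases ?_ (fun i => ?_) i
    · simpa using hH'
    · simpa using hH i

end Pool.CharExpP
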