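import Pool.Agent.Lib.CharExpP.Bounded
import Pool.Agent.Lib.CharExpP.Defs

/-!
# The reduction theorem

For an odd prime `p`: if every finite `p`-group with a subgroup of exponent `p` and index `p` has a
characteristic subgroup of exponent `p` and index less than `p ^ n`, then every finite `p`-group
with `n` independent subgroups of exponent `p` and index `p` has exponent `p`.
-/

namespace Pool.CharExpP

open Subgroup
open scoped commutatorElement

section general

variable {G : Type} [Group G]

theorem indep_of_index {p n : ℕ} (hp : p.Prime) {H : Fin n → Subgroup G}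
    (hi : ∀ i, (H i).index = p) (hinf : (⨅ i, H i).index = p ^ n) : Indep H := by
  classical
  intro i
  by_contra hcon
  push Not at hcon
  -- the intersection of the other members is contained in `H i`
  have h1 : (⨅ j : {j // j ≠ i}, H j) ≤ ⨅ j, H j := by
    refine le_iInf fun j => ?_
    by_cases hj : j = i
    · subst hj
      intro y hy
      by_contra hyi
      obtain ⟨k, hk, hyk⟩ := hcon y hyi
      exact hyk ((mem_iInf.mp hy) ⟨k, hk⟩)
    · exact iInf_le (fun j : {j // j ≠ i} => H j) ⟨j, hj⟩
  have h2 : (⨅ j : {j // j ≠ i}, H j).index ≤ p ^ (n - 1) := by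
    refine (index_iInf_le _).trans ?_
    simp [hi]
  have h3 : (⨅ j, H j).index ∣ (⨅ j : {j // j ≠ i}, H j).index := by
    have : (⨅ j : {j // j ≠ i}, H j) = ⨅ j, H j :=
      le_antisymm h1 (le_iInf fun j => iInf_le _ _)
    rw [this]
  have h4 : (⨅ j : {j // j ≠ i}, H j).index ≠ 0 := by
    apply index_iInf_ne_zero
    intro j
    rw [hi]; exact hp.pos.ne'
  have h5 := Nat.le_of_dvd (Nat.pos_of_ne_zero h4) h3
  rw [hinf] at h5
  have hn : 0 < n := i.pos
  have h6 : p ^ (n - 1) < p ^ n := Nat.pow_lt_pow_right hp.one_lt (by omega)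
  omega

theorem index_of_indep {p n : ℕ} (hp : p.Prime) {H : Fin n → Subgroup G}
    (hN : ∀ i, (H i).Normal) (hi : ∀ i, (H i).index = p) (hI : Indep H) :
    (⨅ i, H i).index = p ^ n := by
  classical
  -- the map to the product of the quotients
  let F : G →* (∀ i, G ⧸ H i) := Pi.monoidHom (fun i => QuotientGroup.mk' (H i))
  have hker : F.ker = ⨅ i, H i := by
    ext g
    rw [MonoidHom.mem_ker, mem_iInf, funext_iff]
    refine forall_congr' fun i => ?_
    exact QuotientGroup.eq_one_iff g
  have hsurj : Function.Surjective F := by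
    choose y hy1 hy2 using hI
    intro t
    -- choose exponents
    have h1 : ∀ i, ∃ m : ℤ, ((y i : G) : G ⧸ H i) ^ m = t i := by
      intro i
      obtain ⟨g, hg⟩ := QuotientGroup.mk_surjective (t i)
      obtain ⟨m, hm⟩ := exists_zpow hp (hi i) (hy1 i) g
      rw [← QuotientGroup.eq_one_iff, QuotientGroup.mk_mul, QuotientGroup.mk_zpow, hg] at hm
      exact ⟨-m, by rw [zpow_neg]; exact (eq_inv_of_mul_eq_one_left hm).symm⟩
    choose m hm using h1
    refine ⟨(List.ofFn (fun i => y i ^ m i)).prod, ?_⟩
    funext i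
    show (((List.ofFn (fun i => y i ^ m i)).prod : G) : G ⧸ H i) = t i
    rw [ofFn_prod_mem_mk (H i) _ i (fun j hj => zpow_mem (hy2 j i (Ne.symm hj)) _),
      QuotientGroup.mk_zpow, hm]
  rw [← hker, index_ker, MonoidHom.range_eq_top.mpr hsurj]
  rw [Nat.card_congr (topEquiv (G := ∀ i, G ⧸ H i)).toEquiv, Nat.card_pi]
  have : ∀ i, Nat.card (G ⧸ H i) = p := hi
  simp [this]

end general

theorem index_of_coatom {p : ℕ} [hp : Fact p.Prime] {G : Type} [Group G] [Finite G]
    (hG : IsPGroup p G) {M : Subgroup G} (hM : IsCoatom M) : M.index = p := by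
  obtain ⟨k, hk⟩ := IsPGroup.iff_card.mp hG
  obtain ⟨m, hm⟩ := IsPGroup.iff_card.mp (hG.to_subgroup M)
  have h1 : m < k := by
    by_contra h
    push Not at h
    have h2 : Nat.card G ≤ Nat.card M := by
      rw [hk, hm]; exact Nat.pow_le_pow_right hp.out.pos h
    exact hM.1 (eq_top_of_le_card M h2)
  obtain ⟨K, hK, hMK⟩ := Sylow.exists_subgroup_card_pow_prime_le p (n := m) (m := m + 1)
    (by rw [hk]; exact pow_dvd_pow p h1) M hm (Nat.le_succ m)
  have h3 : M < K := by
    refine lt_of_le_of_ne hMK ?_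
    rintro rfl
    rw [hm] at hK
    have := Nat.pow_right_injective hp.out.two_le hK
    omega
  have h4 := hM.2 K h3
  have h5 := M.card_mul_index
  rw [h4, card_top] at hK
  rw [hK, hm, pow_succ] at h5
  exact Nat.eq_of_mul_eq_mul_left (pow_pos hp.out.pos m) h5

/-- The easy direction of the reduction. -/
theorem bound_of_forces {p n : ℕ} (hp : p.Prime) (h : Forces p (n + 1)) : Bound p (p ^ n) := by
  intro G _ _ hG ⟨H₀, hi₀, he₀⟩
  by_cases hexp : ∀ g : G, g ^ p = 1
  · exact ⟨⊤, inferInstance, fun g _ => hexp g, by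
      rw [index_top]; exact Nat.one_le_pow _ _ hp.pos⟩
  let 𝓗 : Set (Subgroup G) := {H | H.index = p ∧ (∀ h ∈ H, h ^ p = 1)}
  have hmem : H₀ ∈ 𝓗 := ⟨hi₀, he₀⟩
  have hN : ∀ H ∈ 𝓗, H.Normal := fun H hH => normal_of_index_prime hp hG hH.1
  refine ⟨sInf 𝓗, ?_, fun k hk => he₀ k (sInf_le hmem hk), ?_⟩
  · rw [characteristic_iff_le_comap]
    intro φ
    rw [← map_le_iff_le_comap]
    refine le_sInf ?_
    intro H hH
    rw [map_le_iff_le_comap]
    refine sInf_le ?_
    refine ⟨?_, ?_⟩
    · rw [index_comap_of_surjective _ φ.surjective]; exact hH.1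
    · intro h hh
      have := hH.2 (φ h) hh
      rw [← map_pow] at this
      exact φ.injective (by rw [map_one]; exact this)
  · by_contra hlt
    push Not at hlt
    obtain ⟨H, hH, hI⟩ := exists_indep hp 𝓗 hN (fun H hH => hH.1) n hlt
    exact hexp (h G hG H ⟨fun i => (hH i).1, fun i => (hH i).2,
      index_of_indep hp (fun i => hN _ (hH i)) (fun i => (hH i).1) hI⟩)

/-! ### The hard direction -/

section construction

variable (p n : ℕ) (P : Type) [Group P]

/-- The exponent sum of the letter `i`. -/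
noncomputable def eps (n : ℕ) (i : Fin n) : FreeGroup (Fin n) →* Multiplicative ℤ :=
  FreeGroup.lift (fun j => Multiplicative.ofAdd (if j = i then 1 else 0))

/-- The exponent sum modulo `p`. -/
noncomputable def epsp (i : Fin n) : FreeGroup (Fin n) →* Multiplicative (ZMod p) :=
  (AddMonoidHom.toMultiplicative (Int.castAddHom (ZMod p))).comp (eps n i)

/-- The verbal-like subgroup: intersection of the kernels of all homomorphisms to `P`. -/
def verb : Subgroup (FreeGroup (Fin n)) := ⨅ φ : FreeGroup (Fin n) →* P, φ.ker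

/-- The `p`-th powers of the elements in one of the kernels. -/
def powSet : Set (FreeGroup (Fin n)) := {w | ∃ v, (∃ i, epsp p n i v = 1) ∧ v ^ p = w}

/-- The relations. -/
def rel : Subgroup (FreeGroup (Fin n)) := verb n P ⊔ normalClosure (powSet p n)

variable {p n P}

instance verb_normal : (verb n P).Normal := by
  unfold verb
  exact normal_iInf_normal (fun φ => inferInstance)

instance rel_normal : (rel p n P).Normal := by
  unfold rel
  infer_instance

theorem epsp_of (i j : Fin n) :
    epsp p n i (FreeGroup.of j) = Multiplicative.ofAdd (if j = i then 1 else 0) := by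
  simp only [epsp, eps, MonoidHom.comp_apply, FreeGroup.lift_apply_of]
  split_ifs <;> simp

theorem verb_le (φ : FreeGroup (Fin n) →* P) : verb n P ≤ φ.ker := iInf_le _ φ

theorem map_mem_verb (α : FreeGroup (Fin n) →* FreeGroup (Fin n)) {w : FreeGroup (Fin n)}
    (hw : w ∈ verb n P) : α w ∈ verb n P := by
  rw [verb, mem_iInf] at hw ⊢
  intro φ
  exact hw (φ.comp α)

/-- `P` has an element `y` of order `p`, hence `verb ≤ ker (epsp i)`. -/
theorem verb_le_epsp [Fact p.Prime] {y : P} (hy : orderOf y = p) (i : Fin n) :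
    verb n P ≤ (epsp p n i).ker := by
  intro w hw
  have h1 := verb_le ((zpowersHom P y).comp (eps n i)) hw
  rw [MonoidHom.mem_ker, MonoidHom.comp_apply, zpowersHom_apply,
    ← orderOf_dvd_iff_zpow_eq_one, hy] at h1
  rw [MonoidHom.mem_ker]
  show Multiplicative.ofAdd ((Multiplicative.toAdd (eps n i w) : ℤ) : ZMod p) = 1
  rw [(ZMod.intCast_zmod_eq_zero_iff_dvd _ _).mpr h1]
  rfl

theorem rel_le_epsp [Fact p.Prime] {y : P} (hy : orderOf y = p) (i : Fin n) :
    rel p n P ≤ (epsp p n i).ker := by
  refine sup_le (verb_le_epsp hy i) ?_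
  apply normalClosure_le_normal
  rintro _ ⟨v, _, rfl⟩
  rw [SetLike.mem_coe, MonoidHom.mem_ker, map_pow]
  have h : ∀ z : Multiplicative (ZMod p), z ^ p = 1 := by
    intro z
    rw [← ofAdd_toAdd z, ← ofAdd_nsmul]
    simp
  exact h _

theorem map_mem_rel {α : FreeGroup (Fin n) →* FreeGroup (Fin n)}
    (hα : Function.Surjective α)
    (h : ∀ v, (∃ i, epsp p n i v = 1) → ∃ i, epsp p n i (α v) = 1) {w : FreeGroup (Fin n)}
    (hw : w ∈ rel p n P) : α w ∈ rel p n P := by
  have h1 : rel p n P ≤ (rel p n P).comap α := by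
    refine sup_le ?_ ?_
    · intro v hv
      exact (le_sup_left : verb n P ≤ rel p n P) (map_mem_verb α hv)
    · apply normalClosure_le_normal
      rintro _ ⟨v, hv, rfl⟩
      rw [SetLike.mem_coe, mem_comap, map_pow]
      exact (le_sup_right : normalClosure (powSet p n) ≤ rel p n P)
        (subset_normalClosure ⟨α v, h v hv, rfl⟩)
  exact h1 hw

/-- An automorphism of the free group preserving the kernels induces an automorphism of the
quotient. -/
theorem exists_aut (α : FreeGroup (Fin n) ≃* FreeGroup (Fin n))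
    (h : ∀ v, (∃ i, epsp p n i v = 1) → ∃ i, epsp p n i (α v) = 1)
    (h' : ∀ v, (∃ i, epsp p n i v = 1) → ∃ i, epsp p n i (α.symm v) = 1) :
    ∃ β : (FreeGroup (Fin n) ⧸ rel p n P) ≃* (FreeGroup (Fin n) ⧸ rel p n P),
      ∀ w : FreeGroup (Fin n), β (w : FreeGroup (Fin n) ⧸ rel p n P) = (α w : FreeGroup (Fin n)) := by
  have e : (rel p n P).map α.toMonoidHom = rel p n P := by
    apply le_antisymm
    · rw [map_le_iff_le_comap]
      intro w hw
      exact map_mem_rel (α := α.toMonoidHom) α.surjective h hw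
    · intro w hw
      refine ⟨α.symm w, ?_, by simp⟩
      exact map_mem_rel (α := α.symm.toMonoidHom) α.symm.surjective h' hw
  exact ⟨QuotientGroup.congr _ _ α e, fun w => rfl⟩

/-- Inverting one letter. -/
noncomputable def invLetter (i : Fin n) : FreeGroup (Fin n) ≃* FreeGroup (Fin n) :=
  let f : FreeGroup (Fin n) →* FreeGroup (Fin n) :=
    FreeGroup.lift (fun j => if j = i then (FreeGroup.of j)⁻¹ else FreeGroup.of j)
  have hf : f.comp f = MonoidHom.id _ := by
    apply FreeGroup.ext_hom
    intro j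
    simp only [f, MonoidHom.comp_apply, FreeGroup.lift_apply_of, MonoidHom.id_apply]
    by_cases h : j = i
    · simp [h]
    · simp [h]
  { toFun := f
    invFun := f
    left_inv := fun w => DFunLike.congr_fun hf w
    right_inv := fun w => DFunLike.congr_fun hf w
    map_mul' := map_mul f }

theorem invLetter_of (i j : Fin n) :
    invLetter i (FreeGroup.of j) = if j = i then (FreeGroup.of j)⁻¹ else FreeGroup.of j := by
  show FreeGroup.lift (fun j => if j = i then (FreeGroup.of j)⁻¹ else FreeGroup.of j)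
    (FreeGroup.of j) = _
  rw [FreeGroup.lift_apply_of]

theorem invLetter_symm (i : Fin n) : (invLetter i).symm = invLetter i := rfl

theorem epsp_invLetter_ne {i l : Fin n} (h : l ≠ i) (w : FreeGroup (Fin n)) :
    epsp p n l (invLetter i w) = epsp p n l w := by
  have : (epsp p n l).comp (invLetter i).toMonoidHom = epsp p n l := by
    apply FreeGroup.ext_hom
    intro j
    show epsp p n l (invLetter i (FreeGroup.of j)) = _
    rw [invLetter_of]
    by_cases hj : j = i
    · subst hj
      rw [if_pos rfl, map_inv, epsp_of, if_neg (Ne.symm h)]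
      simp
    · rw [if_neg hj]
  exact DFunLike.congr_fun this w

theorem epsp_invLetter_self (i : Fin n) (w : FreeGroup (Fin n)) :
    epsp p n i (invLetter i w) = (epsp p n i w)⁻¹ := by
  have : (epsp p n i).comp (invLetter i).toMonoidHom = (epsp p n i)⁻¹ := by
    apply FreeGroup.ext_hom
    intro j
    show epsp p n i (invLetter i (FreeGroup.of j)) = (epsp p n i (FreeGroup.of j))⁻¹
    rw [invLetter_of]
    by_cases hj : j = i
    · rw [if_pos hj, map_inv]
    · rw [if_neg hj, epsp_of, if_neg hj]
      simp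
  exact DFunLike.congr_fun this w

theorem epsp_perm (σ : Equiv.Perm (Fin n)) (l : Fin n) (w : FreeGroup (Fin n)) :
    epsp p n (σ l) (FreeGroup.freeGroupCongr σ w) = epsp p n l w := by
  have : (epsp p n (σ l)).comp (FreeGroup.freeGroupCongr σ).toMonoidHom = epsp p n l := by
    apply FreeGroup.ext_hom
    intro j
    show epsp p n (σ l) (FreeGroup.freeGroupCongr σ (FreeGroup.of j)) = _
    have : FreeGroup.freeGroupCongr σ (FreeGroup.of j) = FreeGroup.of (σ j) := by
      simp [FreeGroup.freeGroupCongr]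
    rw [this, epsp_of, epsp_of]
    simp
  exact DFunLike.congr_fun this w

theorem forces_of_bound [Fact p.Prime] (hp2 : p ≠ 2) {N : ℕ} (hn : 0 < n) (hB : Bound p N)
    (hN : N < p ^ n) : Forces p n := by
  classical
  intro P _ _ hP H hH g
  have hp : p.Prime := Fact.out
  by_contra hg
  -- an element of order `p`
  obtain ⟨y, hy⟩ : ∃ y : P, orderOf y = p := by
    apply exists_prime_orderOf_dvd_card'
    obtain ⟨k, hk⟩ := IsPGroup.iff_card.mp hP
    rw [hk]
    apply dvd_pow_self
    rintro rfl
    rw [pow_zero, Nat.card_eq_one_iff_unique] at hk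
    have := hk.1
    exact hg (Subsingleton.elim _ _)
  let G := FreeGroup (Fin n) ⧸ rel p n P
  have hfinHom : Finite (FreeGroup (Fin n) →* P) := Finite.of_equiv _ (FreeGroup.lift (α := Fin n))
  have hfi : (rel p n P).FiniteIndex := by
    have h1 : (verb n P).FiniteIndex := by
      unfold verb
      exact finiteIndex_iInf (fun φ => inferInstance)
    exact finiteIndex_of_le (le_sup_left : verb n P ≤ rel p n P)
  have hfin : Finite G := inferInstance
  have hpG : IsPGroup p G := by
    intro x
    obtain ⟨w, rfl⟩ := QuotientGroup.mk_surjective x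
    obtain ⟨k, hk⟩ := IsPGroup.iff_card.mp hP
    refine ⟨k, ?_⟩
    rw [← QuotientGroup.mk_pow, QuotientGroup.eq_one_iff]
    apply (le_sup_left : verb n P ≤ rel p n P)
    rw [verb, mem_iInf]
    intro φ
    rw [MonoidHom.mem_ker, map_pow, ← hk]
    exact pow_card_eq_one'
  let E : Fin n → G →* Multiplicative (ZMod p) := fun i =>
    QuotientGroup.lift (rel p n P) (epsp p n i) (rel_le_epsp hy i)
  have hE : ∀ i (w : FreeGroup (Fin n)), E i (w : G) = epsp p n i w := fun i w => rfl
  have hEsurj : ∀ i, Function.Surjective (E i) := by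
    intro i z
    refine ⟨((FreeGroup.of i ^ (Multiplicative.toAdd z).val : FreeGroup (Fin n)) : G), ?_⟩
    rw [hE, map_pow, epsp_of, if_pos rfl, ← ofAdd_nsmul]
    simp
  have hEidx : ∀ i, (E i).ker.index = p := by
    intro i
    rw [index_ker, MonoidHom.range_eq_top.mpr (hEsurj i),
      Nat.card_congr (topEquiv (G := Multiplicative (ZMod p))).toEquiv,
      Nat.card_congr Multiplicative.toAdd, Nat.card_zmod]
  have hEexp : ∀ i, ∀ h ∈ (E i).ker, h ^ p = 1 := by
    intro i h hh
    obtain ⟨w, rfl⟩ := QuotientGroup.mk_surjective h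
    rw [← QuotientGroup.mk_pow, QuotientGroup.eq_one_iff]
    exact (le_sup_right : normalClosure (powSet p n) ≤ rel p n P)
      (subset_normalClosure ⟨w, ⟨i, hh⟩, rfl⟩)
  have hEindep : Indep (fun i => (E i).ker) := by
    intro i
    refine ⟨((FreeGroup.of i : FreeGroup (Fin n)) : G), ?_, ?_⟩
    · rw [MonoidHom.mem_ker, hE, epsp_of, if_pos rfl]
      intro h
      have : (1 : ZMod p) = 0 := h
      exact one_ne_zero this
    · intro j hj
      rw [MonoidHom.mem_ker, hE, epsp_of, if_neg (Ne.symm hj)]
      rfl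
  have hDidx : (⨅ i, (E i).ker).index = p ^ n :=
    index_of_indep hp (fun i => inferInstance) hEidx hEindep
  obtain ⟨K, hKchar, hKexp, hKidx⟩ := hB G hpG ⟨(E ⟨0, hn⟩).ker, hEidx _, hEexp _⟩
  -- `K` is not contained in the intersection of the kernels
  obtain ⟨k, hk, i, hki⟩ : ∃ k ∈ K, ∃ i, E i k ≠ 1 := by
    by_contra hcon
    push Not at hcon
    have h1 : K ≤ ⨅ i, (E i).ker := by
      intro k hk
      rw [mem_iInf]
      exact fun i => hcon k hk i
    have h2 := index_dvd_of_le h1
    rw [hDidx] at h2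
    have h3 : K.index ≠ 0 := FiniteIndex.index_ne_zero
    have := Nat.le_of_dvd (Nat.pos_of_ne_zero h3) h2
    omega
  -- every automorphism preserves `K`
  have hKaut : ∀ (β : G ≃* G), ∀ x ∈ K, β x ∈ K := by
    intro β x hx
    have := hKchar.fixed β
    rw [← this] at hx
    exact hx
  -- inverting the letter `i`
  obtain ⟨βi, hβi⟩ := exists_aut (p := p) (P := P) (invLetter i) (by
    rintro v ⟨l, hl⟩
    by_cases h : l = i
    · subst h
      exact ⟨l, by rw [epsp_invLetter_self, hl, inv_one]⟩
    · exact ⟨l, by rw [epsp_invLetter_ne h, hl]⟩) (by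
    rintro v ⟨l, hl⟩
    rw [invLetter_symm]
    by_cases h : l = i
    · subst h
      exact ⟨l, by rw [epsp_invLetter_self, hl, inv_one]⟩
    · exact ⟨l, by rw [epsp_invLetter_ne h, hl]⟩)
  have hEβi : ∀ (l : Fin n) (x : G), l ≠ i → E l (βi x) = E l x := by
    intro l x hl
    obtain ⟨w, rfl⟩ := QuotientGroup.mk_surjective x
    rw [hβi, hE, hE, epsp_invLetter_ne hl]
  have hEβi' : ∀ (x : G), E i (βi x) = (E i x)⁻¹ := by
    intro x
    obtain ⟨w, rfl⟩ := QuotientGroup.mk_surjective x
    rw [hβi, hE, hE, epsp_invLetter_self]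
  let k' : G := k⁻¹ * βi k
  have hk' : k' ∈ K := mul_mem (inv_mem hk) (hKaut βi k hk)
  have hk'l : ∀ l, l ≠ i → E l k' = 1 := by
    intro l hl
    show E l (k⁻¹ * βi k) = 1
    rw [map_mul, map_inv, hEβi l k hl, inv_mul_cancel]
  have hk'i : E i k' ≠ 1 := by
    show E i (k⁻¹ * βi k) ≠ 1
    rw [map_mul, map_inv, hEβi']
    intro h
    apply hki
    set z := E i k
    have h1 : z * z = 1 := by
      have := congrArg (fun t => t⁻¹) h
      simpa using this
    have h2 : (Multiplicative.toAdd z) + (Multiplicative.toAdd z) = 0 := h1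
    have h3 : (2 : ZMod p) * Multiplicative.toAdd z = 0 := by rw [two_mul]; exact h2
    have h4 : (2 : ZMod p) ≠ 0 := by
      intro h5
      have h6 : ((2 : ℕ) : ZMod p) = 0 := by exact_mod_cast h5
      rw [ZMod.natCast_eq_zero_iff] at h6
      exact hp2 ((Nat.prime_dvd_prime_iff_eq hp Nat.prime_two).mp h6)
    exact (mul_eq_zero.mp h3).resolve_left h4
  -- an element of `K` for every coordinate
  have hkj : ∀ j, ∃ x ∈ K, E j x ≠ 1 ∧ ∀ l, l ≠ j → E l x = 1 := by
    intro j
    let σ : Equiv.Perm (Fin n) := Equiv.swap i j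
    obtain ⟨βσ, hβσ⟩ := exists_aut (p := p) (P := P) (FreeGroup.freeGroupCongr σ) (by
      rintro v ⟨l, hl⟩
      exact ⟨σ l, by rw [epsp_perm, hl]⟩) (by
      rintro v ⟨l, hl⟩
      refine ⟨σ.symm l, ?_⟩
      have : (FreeGroup.freeGroupCongr σ).symm = FreeGroup.freeGroupCongr σ.symm := rfl
      rw [this, epsp_perm, hl])
    have h1 : ∀ (l : Fin n) (x : G), E (σ l) (βσ x) = E l x := by
      intro l x
      obtain ⟨w, rfl⟩ := QuotientGroup.mk_surjective x
      rw [hβσ, hE, hE, epsp_perm]
    refine ⟨βσ k', hKaut βσ k' hk', ?_, ?_⟩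
    · have := h1 i k'
      rw [show σ i = j from Equiv.swap_apply_left i j] at this
      rw [this]
      exact hk'i
    · intro l hl
      have := h1 (σ l) k'
      have hσσ : σ (σ l) = l := by
        exact Equiv.swap_apply_self i j l
      rw [hσσ] at this
      rw [this]
      apply hk'l
      intro h
      apply hl
      rw [← hσσ, h]
      exact Equiv.swap_apply_left i j
  -- `K = ⊤`
  have hKtop : K = ⊤ := by
    by_contra hne
    obtain ⟨M, hM, hKM⟩ := (eq_top_or_exists_le_coatom K).resolve_left hne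
    have hnil : Group.IsNilpotent G := hpG.isNilpotent
    have hMn : M.Normal := NormalizerCondition.normal_of_coatom M
      Group.normalizerCondition_of_isNilpotent hM
    have hMi : M.index = p := index_of_coatom hpG hM
    have hC : ∀ a b : G ⧸ M, a * b = b * a := by
      have hcyc : IsCyclic (G ⧸ M) := isCyclic_of_prime_card (p := p) hMi
      intro a b
      exact (IsCyclic.commGroup (α := G ⧸ M)).mul_comm a b
    let _ : CommGroup (G ⧸ M) := { (inferInstance : Group (G ⧸ M)) with mul_comm := hC }
    have hCp : ∀ a : G ⧸ M, a ^ p = 1 := by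
      intro a
      have h1 : Nat.card (G ⧸ M) = p := hMi
      have h2 : a ^ Nat.card (G ⧸ M) = 1 := pow_card_eq_one'
      rwa [h1] at h2
    -- the intersection of the kernels is contained in `M`
    let f : FreeGroup (Fin n) →* G ⧸ M := (QuotientGroup.mk' M).comp (QuotientGroup.mk' (rel p n P))
    have hf : ∀ w, f w = ∏ j, f (FreeGroup.of j) ^ (Multiplicative.toAdd (eps n j w)) := by
      intro w
      have : f = ∏ j, (zpowersHom _ (f (FreeGroup.of j))).comp (eps n j) := by
        apply FreeGroup.ext_hom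
        intro l
        rw [MonoidHom.finsetProd_apply]
        rw [Finset.prod_eq_single l]
        · simp [eps]
        · intro j _ hj
          simp [eps, hj.symm]
        · simp
      conv_lhs => rw [this]
      rw [MonoidHom.finsetProd_apply]
      rfl
    have hDM : ∀ x : G, (∀ l, E l x = 1) → x ∈ M := by
      intro x hx
      obtain ⟨w, rfl⟩ := QuotientGroup.mk_surjective x
      rw [← QuotientGroup.eq_one_iff]
      show f w = 1
      rw [hf]
      apply Finset.prod_eq_one
      intro j _
      have h1 := hx j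
      rw [hE] at h1
      have h2 : ((Multiplicative.toAdd (eps n j w) : ℤ) : ZMod p) = 0 := h1
      rw [ZMod.intCast_zmod_eq_zero_iff_dvd] at h2
      obtain ⟨t, ht⟩ := h2
      rw [ht, zpow_mul, zpow_natCast, hCp, one_zpow]
    have hgen : ∀ j, ((FreeGroup.of j : FreeGroup (Fin n)) : G) ∈ M := by
      intro j
      obtain ⟨x, hxK, hxj, hxl⟩ := hkj j
      -- a power of `x` equal to the generator modulo the kernels
      let c : ZMod p := Multiplicative.toAdd (E j x)
      have hc : c ≠ 0 := hxj
      let m : ℕ := (c⁻¹).val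
      have hm : (m : ZMod p) * c = 1 := by
        simp only [m, ZMod.natCast_val, ZMod.cast_id', id_eq]
        exact inv_mul_cancel₀ hc
      have h1 : x ^ m * ((FreeGroup.of j : FreeGroup (Fin n)) : G)⁻¹ ∈ M := by
        apply hDM
        intro l
        rw [map_mul, map_pow, map_inv, hE, epsp_of]
        by_cases hl : j = l
        · subst hl
          rw [if_pos rfl]
          show Multiplicative.ofAdd (m • c + -(1 : ZMod p)) = 1
          rw [nsmul_eq_mul, hm, add_neg_cancel]
          rfl
        · rw [if_neg hl, hxl l (Ne.symm hl)]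
          simp
      have h2 : x ^ m ∈ M := pow_mem (hKM hxK) m
      have h3 := mul_mem (inv_mem h1) h2
      have h4 : (x ^ m * ((FreeGroup.of j : FreeGroup (Fin n)) : G)⁻¹)⁻¹ * x ^ m =
          ((FreeGroup.of j : FreeGroup (Fin n)) : G) := by group
      rwa [h4] at h3
    apply hM.1
    rw [eq_top_iff]
    intro x _
    obtain ⟨w, rfl⟩ := QuotientGroup.mk_surjective x
    have : (⊤ : Subgroup (FreeGroup (Fin n))) ≤ M.comap (QuotientGroup.mk' (rel p n P)) := by
      rw [← FreeGroup.closure_range_of, closure_le]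
      rintro _ ⟨j, rfl⟩
      exact hgen j
    exact this (mem_top w)
  have hGexp : ∀ x : G, x ^ p = 1 := fun x => hKexp x (hKtop ▸ mem_top x)
  -- map to `P`
  have hHn : ∀ i, (H i).Normal := fun i => normal_of_index_prime hp hP (hH.index i)
  obtain ⟨x, hx, hxg⟩ := exists_factorisation hp hn hHn hH.index
    (indep_of_index hp hH.index hH.inf) g
  let Φ : FreeGroup (Fin n) →* P := FreeGroup.lift x
  have hΦ : ∀ (i : Fin n) (w : FreeGroup (Fin n)), epsp p n i w = 1 → Φ w ∈ H i := by
    intro i w hw
    have := hHn i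
    rw [← QuotientGroup.eq_one_iff]
    have h1 : (QuotientGroup.mk' (H i)).comp Φ =
        (zpowersHom _ ((x i : P) : P ⧸ H i)).comp (eps n i) := by
      apply FreeGroup.ext_hom
      intro j
      by_cases hj : j = i
      · subst hj
        simp [Φ, eps]
      · have : ((x j : P) : P ⧸ H i) = 1 := by
          rw [QuotientGroup.eq_one_iff]; exact hx j i hj
        simp [Φ, eps, hj, this]
    have h2 := DFunLike.congr_fun h1 w
    have h3 : ((Φ w : P) : P ⧸ H i) = ((x i : P) : P ⧸ H i) ^ (Multiplicative.toAdd (eps n i w)) :=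
      h2
    rw [h3]
    have h4 : ((Multiplicative.toAdd (eps n i w) : ℤ) : ZMod p) = 0 := hw
    rw [ZMod.intCast_zmod_eq_zero_iff_dvd] at h4
    obtain ⟨t, ht⟩ := h4
    have h5 : ((x i : P) : P ⧸ H i) ^ p = 1 := by
      have h6 : Nat.card (P ⧸ H i) = p := hH.index i
      have h7 : ((x i : P) : P ⧸ H i) ^ Nat.card (P ⧸ H i) = 1 := pow_card_eq_one'
      rwa [h6] at h7
    rw [ht, zpow_mul, zpow_natCast, h5, one_zpow]
  have hrelΦ : rel p n P ≤ Φ.ker := by
    refine sup_le (verb_le Φ) ?_
    apply normalClosure_le_normal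
    rintro _ ⟨v, ⟨i, hv⟩, rfl⟩
    rw [SetLike.mem_coe, MonoidHom.mem_ker, map_pow]
    exact hH.exp i _ (hΦ i v hv)
  have h1 := hGexp ((((List.ofFn (fun j => FreeGroup.of j)).prod : FreeGroup (Fin n))) : G)
  rw [← QuotientGroup.mk_pow, QuotientGroup.eq_one_iff] at h1
  have h2 := hrelΦ h1
  rw [MonoidHom.mem_ker, map_pow, map_list_prod, List.map_ofFn] at h2
  apply hg
  rw [← hxg, ← h2]
  congr 3
  funext j
  simp [Φ]

end construction

end Pool.CharExpP
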