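import Pool.Agent.Lib.CharExpP.Unitriangular
import Pool.Agent.Lib.CharExpP.ExpThree

/-!
# The exact bounds for `p = 2` and `p = 3`
-/

namespace Pool.CharExpP

open Subgroup
open scoped commutatorElement

section three

variable {G : Type} [Group G]

/-- Membership in the next term of the upper central series can be tested on generators. -/
theorem mem_upper_of_closure {S : Set G} (hS : closure S = ⊤) {x : G} {n : ℕ}
    (h : ∀ s ∈ S, ⁅s, x⁆ ∈ Subgroup.upperCentralSeries G n) :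
    x ∈ Subgroup.upperCentralSeries G (n + 1) := by
  have h1 : (⊤ : Subgroup G) ≤
      (centralizer {((x : G) : G ⧸ Subgroup.upperCentralSeries G n)}).comap
        (QuotientGroup.mk' (Subgroup.upperCentralSeries G n)) := by
    rw [← hS, closure_le]
    intro s hs
    rw [SetLike.mem_coe, mem_comap, mem_centralizer_singleton_iff]
    have h2 := h s hs
    rw [← QuotientGroup.eq_one_iff] at h2
    have h3 : ((⁅s, x⁆ : G) : G ⧸ Subgroup.upperCentralSeries G n) =
        ⁅((s : G) : G ⧸ Subgroup.upperCentralSeries G n), ((x : G) : G ⧸ _)⁆ := rfl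
    rw [h3, commutatorElement_eq_one_iff_mul_comm] at h2
    exact h2
  rw [Subgroup.mem_upperCentralSeries_succ_iff]
  intro y
  have h2 := h1 (mem_top y)
  rw [mem_comap, mem_centralizer_singleton_iff] at h2
  rw [← QuotientGroup.eq_one_iff]
  have h3 : ((⁅x, y⁆ : G) : G ⧸ Subgroup.upperCentralSeries G n) =
      ⁅((x : G) : G ⧸ Subgroup.upperCentralSeries G n), ((y : G) : G ⧸ _)⁆ := rfl
  rw [h3, commutatorElement_eq_one_iff_mul_comm]
  exact h2.symm

/-- If all fourfold commutators of generators are trivial, the class is at most three. -/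
theorem lcs_three_of_generators {S : Set G} (hS : closure S = ⊤)
    (h : ∀ a ∈ S, ∀ b ∈ S, ∀ c ∈ S, ∀ d ∈ S, ⁅a, ⁅b, ⁅c, d⁆⁆⁆ = 1) :
    (⊤ : Subgroup G).lowerCentralSeries 3 = ⊥ := by
  rw [lowerCentralSeries_eq_bot_iff_upperCentralSeries_eq_top, eq_top_iff, ← hS, closure_le]
  intro d hd
  refine mem_upper_of_closure hS fun c hc => ?_
  refine mem_upper_of_closure hS fun b hb => ?_
  refine mem_upper_of_closure hS fun a ha => ?_
  rw [h a ha b hb c hc d hd]
  exact one_mem _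

/-- The identities of `exp3_anti` inside a subgroup of exponent three. -/
theorem anti_in {H : Subgroup G} (hH : ∀ h ∈ H, h ^ 3 = 1) {g h x : G} (hg : g ∈ H) (hh : h ∈ H)
    (hx : x ∈ H) : ⁅g, ⁅h, x⁆⁆ = ⁅h, ⁅g, x⁆⁆⁻¹ := by
  have := (exp3_anti (T := H) (fun y => Subtype.ext (hH y y.2)) ⟨g, hg⟩ ⟨h, hh⟩ ⟨x, hx⟩).1
  exact congrArg Subtype.val this

theorem inv_in {H : Subgroup G} (hH : ∀ h ∈ H, h ^ 3 = 1) {g x : G} (hg : g ∈ H)
    (hx : x ∈ H) : ⁅g, x⁻¹⁆ = ⁅g, x⁆⁻¹ := by
  have := (exp3_anti (T := H) (fun y => Subtype.ext (hH y y.2)) ⟨g, hg⟩ 1 ⟨x, hx⟩).2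
  exact congrArg Subtype.val this

theorem four_in {H : Subgroup G} (hH : ∀ h ∈ H, h ^ 3 = 1) {g h k x : G} (hg : g ∈ H)
    (hh : h ∈ H) (hk : k ∈ H) (hx : x ∈ H) : ⁅g, ⁅h, ⁅k, x⁆⁆⁆ = 1 := by
  have := exp3_four (T := H) (fun y => Subtype.ext (hH y y.2)) ⟨g, hg⟩ ⟨h, hh⟩ ⟨k, hk⟩ ⟨x, hx⟩
  exact congrArg Subtype.val this

theorem cyc_in {H : Subgroup G} (hH : ∀ h ∈ H, h ^ 3 = 1) {a b c : G} (ha : a ∈ H)
    (hb : b ∈ H) (hc : c ∈ H) : ⁅a, ⁅b, c⁆⁆ = ⁅c, ⁅a, b⁆⁆ := by
  have hcb : ⁅c, b⁆ ∈ H := by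
    rw [commutatorElement_def]
    exact mul_mem (mul_mem (mul_mem hc hb) (inv_mem hc)) (inv_mem hb)
  rw [anti_in hH hc ha hb, ← commutatorElement_inv c b, inv_in hH ha hcb]

theorem forces_three_four : Forces 3 4 := by
  intro G _ _ hG H hH g
  have hp : Nat.Prime 3 := Nat.prime_three
  have hN : ∀ i, (H i).Normal := fun i => normal_of_index_prime hp hG (hH.index i)
  have hI := indep_of_index hp hH.index hH.inf
  let Y : Fin 4 → Set G := fun i => {y | ∀ j, j ≠ i → y ∈ H j}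
  let S : Set G := ⋃ i, Y i
  have hS : closure S = ⊤ := by
    rw [eq_top_iff]
    intro g _
    obtain ⟨x, hx, rfl⟩ := exists_factorisation hp (by norm_num) hN hH.index hI g
    apply list_prod_mem
    intro a ha
    rw [List.mem_ofFn] at ha
    obtain ⟨i, rfl⟩ := ha
    exact subset_closure (Set.mem_iUnion.mpr ⟨i, fun j hj => hx i j hj.symm⟩)
  have hcomm : ∀ (i j : Fin 4) (hij : i ≠ j) (x y : G), x ∈ Y i → y ∈ Y j → ∀ k, ⁅x, y⁆ ∈ H k := by
    intro i j hij x y hx hy k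
    have := hN k
    by_cases hk : k = i
    · have hy' : y ∈ H k := hy k (by rintro rfl; exact hij hk.symm)
      rw [commutatorElement_def]
      exact mul_mem (this.conj_mem y hy' x) (inv_mem hy')
    · have hx' : x ∈ H k := hx k hk
      rw [commutatorElement_def, mul_assoc, mul_assoc]
      refine mul_mem hx' ?_
      rw [← mul_assoc]
      exact this.conj_mem _ (inv_mem hx') y
  have hcommH : ∀ (k : Fin 4) (x y : G), y ∈ H k → ⁅x, y⁆ ∈ H k := by
    intro k x y hy
    have := hN k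
    rw [commutatorElement_def]
    exact mul_mem (this.conj_mem y hy x) (inv_mem hy)
  -- the distinct case
  have hdist : ∀ (i j k l : Fin 4), i ≠ j → i ≠ k → i ≠ l → j ≠ k → j ≠ l → k ≠ l →
      ∀ a ∈ Y i, ∀ b ∈ Y j, ∀ c ∈ Y k, ∀ d ∈ Y l, ⁅a, ⁅b, ⁅c, d⁆⁆⁆ = 1 := by
    -- the three antisymmetries
    have s1 : ∀ (i j k l : Fin 4), i ≠ j → i ≠ k → i ≠ l → j ≠ k → j ≠ l → k ≠ l →
      ∀ a ∈ Y i, ∀ b ∈ Y j, ∀ c ∈ Y k, ∀ d ∈ Y l,
        ⁅b, ⁅a, ⁅c, d⁆⁆⁆ = ⁅a, ⁅b, ⁅c, d⁆⁆⁆⁻¹ := by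
      intro i j k l hij hik hil hjk hjl hkl a ha b hb c hc d hd
      exact anti_in (hH.exp k) (hb k hjk.symm) (ha k hik.symm) (hcomm k l hkl c d hc hd k)
    have s2 : ∀ (i j k l : Fin 4), i ≠ j → i ≠ k → i ≠ l → j ≠ k → j ≠ l → k ≠ l →
      ∀ a ∈ Y i, ∀ b ∈ Y j, ∀ c ∈ Y k, ∀ d ∈ Y l,
        ⁅a, ⁅c, ⁅b, d⁆⁆⁆ = ⁅a, ⁅b, ⁅c, d⁆⁆⁆⁻¹ := by
      intro i j k l hij hik hil hjk hjl hkl a ha b hb c hc d hd
      rw [anti_in (hH.exp i) (hc i hik) (hb i hij) (hd i hil)]
      exact inv_in (hH.exp j) (ha j hij.symm) (hcommH j _ _ (hcomm k l hkl c d hc hd j))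
    have s3 : ∀ (i j k l : Fin 4), i ≠ j → i ≠ k → i ≠ l → j ≠ k → j ≠ l → k ≠ l →
      ∀ a ∈ Y i, ∀ b ∈ Y j, ∀ c ∈ Y k, ∀ d ∈ Y l,
        ⁅a, ⁅b, ⁅d, c⁆⁆⁆ = ⁅a, ⁅b, ⁅c, d⁆⁆⁆⁻¹ := by
      intro i j k l hij hik hil hjk hjl hkl a ha b hb c hc d hd
      rw [← commutatorElement_inv c d,
        inv_in (hH.exp i) (hb i hij) (hcomm k l hkl c d hc hd i)]
      exact inv_in (hH.exp j) (ha j hij.symm) (hcommH j _ _ (hcomm k l hkl c d hc hd j))
    intro i j k l hij hik hil hjk hjl hkl a ha b hb c hc d hd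
    have f1 : ⁅a, ⁅b, ⁅c, d⁆⁆⁆ = ⁅⁅c, d⁆, ⁅a, b⁆⁆ :=
      cyc_in (hH.exp k) (ha k hik.symm) (hb k hjk.symm) (hcomm k l hkl c d hc hd k)
    have f2 : ⁅c, ⁅d, ⁅a, b⁆⁆⁆ = ⁅⁅a, b⁆, ⁅c, d⁆⁆ :=
      cyc_in (hH.exp i) (hc i hik) (hd i hil) (hcomm i j hij a b ha hb i)
    have f3 : ⁅c, ⁅d, ⁅a, b⁆⁆⁆ = ⁅a, ⁅b, ⁅c, d⁆⁆⁆ := by
      rw [s2 k i l j hik.symm hkl hjk.symm hil hij hjl.symm c hc a ha d hd b hb,
        s3 k i j l hik.symm hjk.symm hkl hij hil hjl c hc a ha b hb d hd,
        s1 i k j l hik hij hil hjk.symm hkl hjl a ha c hc b hb d hd,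
        s2 i j k l hij hik hil hjk hjl hkl a ha b hb c hc d hd]
      simp only [inv_inv]
    have f4 : ⁅a, ⁅b, ⁅c, d⁆⁆⁆ = ⁅a, ⁅b, ⁅c, d⁆⁆⁆⁻¹ := by
      conv_rhs => rw [f1, commutatorElement_inv]
      rw [← f2, f3]
    have hmem : ⁅a, ⁅b, ⁅c, d⁆⁆⁆ ∈ H i :=
      hcommH i _ _ (hcommH i _ _ (hcomm k l hkl c d hc hd i))
    have f5 := hH.exp i _ hmem
    have f6 : ⁅a, ⁅b, ⁅c, d⁆⁆⁆ * ⁅a, ⁅b, ⁅c, d⁆⁆⁆ = 1 := by
      nth_rewrite 2 [f4]
      rw [mul_inv_cancel]
    rw [pow_succ, pow_two, f6, one_mul] at f5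
    exact f5
  have hlcs : (⊤ : Subgroup G).lowerCentralSeries 3 = ⊥ := by
    apply lcs_three_of_generators hS
    intro a ha b hb c hc d hd
    obtain ⟨i, hi⟩ := Set.mem_iUnion.mp ha
    obtain ⟨j, hj⟩ := Set.mem_iUnion.mp hb
    obtain ⟨k, hk⟩ := Set.mem_iUnion.mp hc
    obtain ⟨l, hl⟩ := Set.mem_iUnion.mp hd
    by_cases hall : ∃ m : Fin 4, m ≠ i ∧ m ≠ j ∧ m ≠ k ∧ m ≠ l
    · obtain ⟨m, h1, h2, h3, h4⟩ := hall
      exact four_in (hH.exp m) (hi m h1) (hj m h2) (hk m h3) (hl m h4)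
    · have hd4 : ∀ i j k l : Fin 4, (¬ ∃ m : Fin 4, m ≠ i ∧ m ≠ j ∧ m ≠ k ∧ m ≠ l) →
          i ≠ j ∧ i ≠ k ∧ i ≠ l ∧ j ≠ k ∧ j ≠ l ∧ k ≠ l := by decide
      obtain ⟨h1, h2, h3, h4, h5, h6⟩ := hd4 i j k l hall
      exact hdist i j k l h1 h2 h3 h4 h5 h6 a hi b hj c hk d hl
  exact exponent_of_indep hp (by norm_num) (show lcsF G 4 = ⊥ from hlcs) hN hH.index hH.exp hI g

end three

section two

/-- For `p = 2` an exponent two group is abelian. -/
theorem bound_two_four : Bound 2 4 := by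
  intro G _ _ hG ⟨H, hi, he⟩
  have h := bounded_class (c := 1) Nat.prime_two hG H hi he (by
    rw [Subgroup.lowerCentralSeries_succ, Subgroup.lowerCentralSeries_zero,
      commutator_eq_bot_iff_le_centralizer]
    intro x hx
    rw [mem_centralizer_iff]
    intro y hy
    have h1 : ∀ z ∈ H, z⁻¹ = z := by
      intro z hz
      have := he z hz
      rw [pow_two] at this
      exact inv_eq_of_mul_eq_one_left this
    have h2 := h1 (y * x) (mul_mem hy hx)
    rw [mul_inv_rev, h1 y hy, h1 x hx] at h2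
    exact h2.symm)
  simpa using h

/-- An automorphism of the dihedral group of order eight. -/
def dihAut : DihedralGroup 4 ≃* DihedralGroup 4 where
  toFun
    | DihedralGroup.r i => DihedralGroup.r i
    | DihedralGroup.sr i => DihedralGroup.sr (i + 1)
  invFun
    | DihedralGroup.r i => DihedralGroup.r i
    | DihedralGroup.sr i => DihedralGroup.sr (i - 1)
  left_inv := by rintro (i | i) <;> simp
  right_inv := by rintro (i | i) <;> simp
  map_mul' := by
    rintro (i | i) (j | j) <;> simp <;> ring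

theorem not_bound_two_three : ¬ Bound 2 3 := by
  intro hB
  have hpG : IsPGroup 2 (DihedralGroup 4) := by
    apply IsPGroup.of_card (n := 3)
    rw [DihedralGroup.nat_card]
    norm_num
  -- a Klein four subgroup
  let V : Subgroup (DihedralGroup 4) :=
    { carrier := {DihedralGroup.r 0, DihedralGroup.r 2, DihedralGroup.sr 0, DihedralGroup.sr 2}
      one_mem' := by
        left; rfl
      mul_mem' := by
        rintro a b (rfl | rfl | rfl | rfl) (rfl | rfl | rfl | rfl) <;> decide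
      inv_mem' := by
        rintro a (rfl | rfl | rfl | rfl) <;> decide }
  obtain ⟨K, hK, hexp, hidx⟩ := hB (DihedralGroup 4) hpG ⟨V, by
    have h1 : Nat.card V = 4 := by
      have : (V : Set (DihedralGroup 4)) = (({DihedralGroup.r 0, DihedralGroup.r 2,
        DihedralGroup.sr 0, DihedralGroup.sr 2} : Finset (DihedralGroup 4)) :
          Set (DihedralGroup 4)) := by
        ext x; simp [V]
      show ((V : Set (DihedralGroup 4))).ncard = 4
      rw [this, Set.ncard_coe_finset]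
      decide
    have h2 := V.card_mul_index
    rw [h1, DihedralGroup.nat_card] at h2
    omega, by
    rintro h (rfl | rfl | rfl | rfl) <;> decide⟩
  have hcard := K.card_mul_index
  rw [DihedralGroup.nat_card] at hcard
  have hr1 : DihedralGroup.r 1 ∉ K := by
    intro h
    have := hexp _ h
    revert this
    decide
  have hr3 : DihedralGroup.r 3 ∉ K := by
    intro h
    have := hexp _ h
    revert this
    decide
  have haut : ∀ x ∈ K, dihAut x ∈ K := by
    intro x hx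
    have := hK.fixed dihAut
    rw [← this] at hx
    exact hx
  by_cases hsr : ∃ i, DihedralGroup.sr i ∈ K
  · obtain ⟨i, hi⟩ := hsr
    have h1 : DihedralGroup.sr (i + 1) ∈ K := haut _ hi
    have h2 := mul_mem hi h1
    rw [DihedralGroup.sr_mul_sr] at h2
    have h3 : i + 1 - i = (1 : ZMod 4) := by ring
    rw [h3] at h2
    exact hr1 h2
  · push Not at hsr
    have h1 : (K : Set (DihedralGroup 4)) ⊆ (({DihedralGroup.r 0, DihedralGroup.r 2} :
        Finset (DihedralGroup 4)) : Set (DihedralGroup 4)) := by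
      intro x hx
      rcases x with i | i
      · have h2 : ∀ i : ZMod 4, i = 0 ∨ i = 1 ∨ i = 2 ∨ i = 3 := by decide
        rcases h2 i with rfl | rfl | rfl | rfl
        · simp
        · exact absurd hx hr1
        · simp
        · exact absurd hx hr3
      · exact absurd hx (hsr i)
    have h2 : Nat.card K ≤ 2 := by
      have h3 := Set.ncard_le_ncard h1 (Finset.finite_toSet _)
      rw [Set.ncard_coe_finset] at h3
      exact h3
    nlinarith [hcard, hidx, h2, Nat.card_pos (α := K)]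

end two

/-- The general lower bound. -/
theorem not_bound_pow {p : ℕ} (hp : p.Prime) : ¬ Bound p (p ^ p - 1) := by
  have : Fact p.Prime := ⟨hp⟩
  by_cases h2 : p = 2
  · subst h2
    exact not_bound_two_three
  · intro hB
    exact not_forces_p (forces_of_bound h2 hp.pos hB
      (Nat.sub_lt (pow_pos hp.pos p) one_pos))


theorem forces_two_three : Forces 2 3 := by
  intro G _ _ hG H hH g
  have hp : Nat.Prime 2 := Nat.prime_two
  have hN : ∀ i, (H i).Normal := fun i => normal_of_index_prime hp hG (hH.index i)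
  have hI := indep_of_index hp hH.index hH.inf
  have hab : ∀ i, (H i).lowerCentralSeries 1 = ⊥ := by
    intro i
    rw [Subgroup.lowerCentralSeries_succ, Subgroup.lowerCentralSeries_zero,
      commutator_eq_bot_iff_le_centralizer]
    intro x hx
    rw [mem_centralizer_iff]
    intro y hy
    have h1 : ∀ z ∈ H i, z⁻¹ = z := by
      intro z hz
      have := hH.exp i z hz
      rw [pow_two] at this
      exact inv_eq_of_mul_eq_one_left this
    have h2 := h1 (y * x) (mul_mem hy hx)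
    rw [mul_inv_rev, h1 y hy, h1 x hx] at h2
    exact h2.symm
  have h01 : (H 0) ⊔ (H 1) = ⊤ := by
    apply sup_eq_top_of_index_prime hp (hH.index 0)
    intro hle
    obtain ⟨y, hy1, hy2⟩ := hI 0
    exact hy1 (hle (hy2 1 (by decide)))
  have hfit := @fitting G _ (H 0) (H 1) (hN 0) (hN 1) h01 1 1 (hab 0) (hab 1)
  exact exponent_of_indep hp (by norm_num) (show lcsF G 3 = ⊥ from hfit) hN hH.index hH.exp hI g

theorem bound_mono {p N M : ℕ} (h : N ≤ M) (hB : Bound p N) : Bound p M := by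
  intro G _ _ hG hH
  obtain ⟨K, h1, h2, h3⟩ := hB G hG hH
  exact ⟨K, h1, h2, h3.trans h⟩

theorem forces_succ {p n : ℕ} (hp : p.Prime) (hF : Forces p n) : Forces p (n + 1) := by
  intro G _ _ hG H hH g
  have hN : ∀ i, (H i).Normal := fun i => normal_of_index_prime hp hG (hH.index i)
  have hI := indep_of_index hp hH.index hH.inf
  have hI' : Indep (fun i : Fin n => H i.castSucc) := by
    intro i
    obtain ⟨y, hy1, hy2⟩ := hI i.castSucc
    exact ⟨y, hy1, fun j hj => hy2 _ (fun h => hj (Fin.castSucc_injective n h))⟩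
  exact hF G hG (fun i : Fin n => H i.castSucc) ⟨fun i => hH.index _, fun i => hH.exp _,
    index_of_indep hp (fun i => hN _) (fun i => hH.index _) hI'⟩ g

theorem forces_mono {p n m : ℕ} (hp : p.Prime) (h : n ≤ m) (hF : Forces p n) : Forces p m := by
  induction h with
  | refl => exact hF
  | step _ ih => exact forces_succ hp ih

/-- The quantitative equivalence for all primes. -/
theorem bound_iff_forces {p : ℕ} (hp : p.Prime) {n N : ℕ} (h1 : p ^ n ≤ N)
    (h2 : N < p ^ (n + 1)) : Bound p N ↔ Forces p (n + 1) := by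
  have hfact : Fact p.Prime := ⟨hp⟩
  by_cases hp2 : p = 2
  · subst hp2
    rcases Nat.lt_or_ge n 2 with hn | hn
    · constructor
      · intro hB
        exfalso
        apply not_bound_two_three
        refine bound_mono ?_ hB
        have h3 : 2 ^ (n + 1) ≤ 2 ^ 2 := Nat.pow_le_pow_right (by norm_num) (by omega)
        have h4 : 2 ^ 2 = 4 := by norm_num
        omega
      · intro hF
        exact absurd (forces_mono hp (show n + 1 ≤ 2 by omega) hF) not_forces_p
    · constructor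
      · intro _
        exact forces_mono hp (show 3 ≤ n + 1 by omega) forces_two_three
      · intro _
        refine bound_mono ?_ bound_two_four
        have h3 : 2 ^ 2 ≤ 2 ^ n := Nat.pow_le_pow_right (by norm_num) hn
        have h4 : 2 ^ 2 = 4 := by norm_num
        omega
  · exact ⟨fun h => forces_of_bound hp2 (Nat.succ_pos n) h h2,
      fun h => bound_mono h1 (bound_of_forces hp h)⟩

end Pool.CharExpP
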