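import Pool.Agent.Lib.CharExpP.Reduction

/-!
# The unitriangular group of degree `p + 1` over `𝔽_p`

It has `p` independent maximal subgroups of exponent `p` but does not have exponent `p`.
-/

namespace Pool.CharExpP

open Subgroup

section

variable (p : ℕ)

/-- Square matrices of size `p + 1` over `𝔽_p`. -/
abbrev Mat : Type := Matrix (Fin (p + 1)) (Fin (p + 1)) (ZMod p)

variable {p}

/-- Strictly upper triangular. -/
def Strict (X : Mat p) : Prop := ∀ i j, j ≤ i → X i j = 0

theorem Strict.mul {X Y : Mat p} (hX : Strict X) (hY : Strict Y) : Strict (X * Y) := by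
  intro i j hij
  rw [Matrix.mul_apply]
  apply Finset.sum_eq_zero
  intro k _
  by_cases hk : k ≤ i
  · rw [hX i k hk, zero_mul]
  · rw [hY k j (hij.trans (le_of_lt (not_le.mp hk))), mul_zero]

theorem Strict.add {X Y : Mat p} (hX : Strict X) (hY : Strict Y) : Strict (X + Y) := by
  intro i j hij
  rw [Matrix.add_apply, hX i j hij, hY i j hij, add_zero]

theorem Strict.neg {X : Mat p} (hX : Strict X) : Strict (-X) := by
  intro i j hij
  rw [Matrix.neg_apply, hX i j hij, neg_zero]

variable (p)

/-- Unitriangular matrices. -/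
def UT : Submonoid (Mat p) where
  carrier := {g | Strict (g - 1)}
  one_mem' := by
    intro i j _
    simp
  mul_mem' := by
    intro g h hg hh
    have : g * h - 1 = (g - 1) * (h - 1) + ((g - 1) + (h - 1)) := by noncomm_ring
    show Strict (g * h - 1)
    rw [this]
    exact (Strict.mul hg hh).add (Strict.add hg hh)

/-- The unitriangular group. -/
abbrev UG : Type := ↥((UT p).units)

variable {p}

/-- The entry just above the diagonal in row `m`. -/
def sup (X : Mat p) (m : ℕ) : ZMod p :=
  if h : m + 1 < p + 1 then X ⟨m, by omega⟩ ⟨m + 1, h⟩ else 0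

theorem pow_band {X : Mat p} (hX : Strict X) (k : ℕ) :
    (∀ i j : Fin (p + 1), (j : ℕ) < i + k → (X ^ k) i j = 0) ∧
      ∀ i j : Fin (p + 1), (j : ℕ) = i + k →
        (X ^ k) i j = ∏ l ∈ Finset.range k, sup X (i + l) := by
  induction k with
  | zero =>
    constructor
    · intro i j h
      rw [pow_zero, Matrix.one_apply_ne]
      rintro rfl
      omega
    · intro i j h
      have : i = j := Fin.ext (by omega)
      subst this
      simp
  | succ k ih =>
    constructor
    · intro i j h
      rw [pow_succ, Matrix.mul_apply]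
      apply Finset.sum_eq_zero
      intro m _
      by_cases hm : (m : ℕ) < i + k
      · rw [ih.1 i m hm, zero_mul]
      · rw [hX m j (Fin.le_def.mpr (by omega)), mul_zero]
    · intro i j h
      have hj := j.isLt
      let m₀ : Fin (p + 1) := ⟨i + k, by omega⟩
      rw [pow_succ, Matrix.mul_apply, Finset.sum_eq_single m₀]
      · rw [ih.2 i m₀ rfl, Finset.prod_range_succ]
        congr 1
        unfold sup
        rw [dif_pos (show (i : ℕ) + k + 1 < p + 1 by omega)]
        congr 1
        exact Fin.ext h
      · intro m _ hm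
        have hm' : (m : ℕ) ≠ i + k := fun h' => hm (Fin.ext h')
        by_cases hm2 : (m : ℕ) < i + k
        · rw [ih.1 i m hm2, zero_mul]
        · rw [hX m j (Fin.le_def.mpr (by omega)), mul_zero]
      · intro h'
        exact absurd (Finset.mem_univ _) h'

theorem pow_big {X : Mat p} (hX : Strict X) {k : ℕ} (hk : p < k) : X ^ k = 0 := by
  ext i j
  rw [(pow_band hX k).1 i j (by have := j.isLt; omega), Matrix.zero_apply]

theorem pow_p_eq_zero {X : Mat p} (hX : Strict X) {m : ℕ} (hm : m < p) (h0 : sup X m = 0) :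
    X ^ p = 0 := by
  ext i j
  by_cases h : (j : ℕ) < i + p
  · rw [(pow_band hX p).1 i j h, Matrix.zero_apply]
  · have hj := j.isLt
    have hi : (i : ℕ) = 0 := by omega
    rw [(pow_band hX p).2 i j (by omega), Matrix.zero_apply, hi]
    apply Finset.prod_eq_zero (Finset.mem_range.mpr hm)
    rw [zero_add]
    exact h0

theorem one_add_pow_p [hp : Fact p.Prime] (X : Mat p) : (1 + X) ^ p = 1 + X ^ p := by
  rw [add_pow_char_of_commute (p := p) (Commute.one_left X), one_pow]

theorem coe_pow_p [hp : Fact p.Prime] (g : Mat p) : g ^ p = 1 + (g - 1) ^ p := by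
  have := one_add_pow_p (g - 1)
  rwa [add_sub_cancel] at this

/-- The superdiagonal entries as homomorphisms. -/
def supHom (m : ℕ) (hm : m < p) : UG p →* Multiplicative (ZMod p) where
  toFun g := Multiplicative.ofAdd (sup ((g : (Mat p)ˣ) : Mat p) m)
  map_one' := by
    rw [← ofAdd_zero]
    congr 1
    unfold sup
    rw [dif_pos (by omega)]
    show (1 : Mat p) _ _ = 0
    rw [Matrix.one_apply_ne]
    intro h
    have := congrArg Fin.val h
    simp at this
  map_mul' := by
    intro g h
    rw [← ofAdd_add]
    congr 1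
    have hg : Strict (((g : (Mat p)ˣ) : Mat p) - 1) := g.2.1
    have hh : Strict (((h : (Mat p)ˣ) : Mat p) - 1) := h.2.1
    unfold sup
    rw [dif_pos (show m + 1 < p + 1 by omega), dif_pos (show m + 1 < p + 1 by omega),
      dif_pos (show m + 1 < p + 1 by omega)]
    show (((g : (Mat p)ˣ) : Mat p) * ((h : (Mat p)ˣ) : Mat p)) _ _ = _
    set i : Fin (p + 1) := ⟨m, by omega⟩ with hi
    set j : Fin (p + 1) := ⟨m + 1, by omega⟩ with hj
    set a := ((g : (Mat p)ˣ) : Mat p)
    set b := ((h : (Mat p)ˣ) : Mat p)
    have e : a * b = (a - 1) * (b - 1) + (a + b) - 1 := by noncomm_ring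
    rw [e]
    have hij : i ≠ j := by
      intro h
      have := congrArg Fin.val h
      simp [hi, hj] at this
    simp only [Matrix.sub_apply, Matrix.add_apply, Matrix.one_apply_ne hij, sub_zero]
    have : ((a - 1) * (b - 1)) i j = 0 := by
      rw [Matrix.mul_apply]
      apply Finset.sum_eq_zero
      intro k _
      by_cases hk : k ≤ i
      · rw [hg i k hk, zero_mul]
      · rw [hh k j, mul_zero]
        have : (i : ℕ) < k := not_le.mp (fun h' => hk (Fin.le_def.mpr h'))
        exact Fin.le_def.mpr (by simp only [hi, hj] at this ⊢; omega)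
    rw [this, zero_add]

theorem sup_sub_one (a : Mat p) {m : ℕ} (hm : m < p) : sup (a - 1) m = sup a m := by
  unfold sup
  rw [dif_pos (show m + 1 < p + 1 by omega), dif_pos (show m + 1 < p + 1 by omega),
    Matrix.sub_apply, Matrix.one_apply_ne, sub_zero]
  intro h
  have := congrArg Fin.val h
  simp at this

/-- The elementary matrix with a one just above the diagonal. -/
def elem (m : ℕ) (hm : m < p) : Mat p :=
  Matrix.single (⟨m, by omega⟩ : Fin (p + 1)) (⟨m + 1, by omega⟩ : Fin (p + 1)) 1

theorem elem_strict (m : ℕ) (hm : m < p) : Strict (elem m hm) := by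
  intro i j hij
  unfold elem
  rw [Matrix.single_apply, if_neg]
  rintro ⟨rfl, rfl⟩
  have := Fin.le_def.mp hij
  simp at this

theorem elem_sq (m : ℕ) (hm : m < p) : elem m hm * elem m hm = 0 := by
  unfold elem
  rw [Matrix.single_mul_single_of_ne]
  intro h
  have := congrArg Fin.val h
  simp at this

/-- The elementary unitriangular element. -/
def tr (m : ℕ) (hm : m < p) : UG p :=
  ⟨⟨1 + elem m hm, 1 - elem m hm, by
      have : (1 + elem m hm) * (1 - elem m hm) = 1 - elem m hm * elem m hm := by noncomm_ring
      rw [this, elem_sq, sub_zero], by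
      have : (1 - elem m hm) * (1 + elem m hm) = 1 - elem m hm * elem m hm := by noncomm_ring
      rw [this, elem_sq, sub_zero]⟩, by
    constructor
    · show Strict ((1 + elem m hm) - 1)
      rw [add_sub_cancel_left]
      exact elem_strict m hm
    · show Strict ((1 - elem m hm) - 1)
      have : (1 - elem m hm) - 1 = - elem m hm := by abel
      rw [this]
      exact (elem_strict m hm).neg⟩

theorem supHom_tr (m l : ℕ) (hm : m < p) (hl : l < p) :
    supHom l hl (tr m hm) = Multiplicative.ofAdd (if l = m then 1 else 0) := by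
  show Multiplicative.ofAdd (sup (1 + elem m hm) l) = _
  congr 1
  unfold sup elem
  rw [dif_pos (show l + 1 < p + 1 by omega), Matrix.add_apply, Matrix.one_apply_ne, zero_add,
    Matrix.single_apply]
  · by_cases h : l = m
    · subst h
      simp
    · rw [if_neg h, if_neg]
      rintro ⟨h1, _⟩
      exact h (congrArg Fin.val h1).symm
  · intro h
    have := congrArg Fin.val h
    simp at this

theorem not_forces_p [hp : Fact p.Prime] : ¬ Forces p p := by
  intro hF
  have hpp : p.Prime := Fact.out
  let H : Fin p → Subgroup (UG p) := fun i => (supHom (i : ℕ) i.isLt).ker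
  have hidx : ∀ i, (H i).index = p := by
    intro i
    have hs : Function.Surjective (supHom (p := p) (i : ℕ) i.isLt) := by
      intro z
      refine ⟨(tr (i : ℕ) i.isLt) ^ (Multiplicative.toAdd z).val, ?_⟩
      rw [map_pow, supHom_tr, if_pos rfl, ← ofAdd_nsmul]
      simp
    show (supHom (p := p) (i : ℕ) i.isLt).ker.index = p
    rw [index_ker, MonoidHom.range_eq_top.mpr hs,
      Nat.card_congr (topEquiv (G := Multiplicative (ZMod p))).toEquiv,
      Nat.card_congr Multiplicative.toAdd, Nat.card_zmod]
  have hexp : ∀ i, ∀ h ∈ H i, h ^ p = 1 := by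
    intro i h hh
    have h1 : sup ((h : (Mat p)ˣ) : Mat p) (i : ℕ) = 0 := hh
    have h2 : Strict (((h : (Mat p)ˣ) : Mat p) - 1) := h.2.1
    apply Subtype.ext
    apply Units.ext
    show ((h : (Mat p)ˣ) : Mat p) ^ p = 1
    rw [coe_pow_p, pow_p_eq_zero h2 i.isLt, add_zero]
    rw [sup_sub_one _ i.isLt, h1]
  have hI : Indep H := by
    intro i
    refine ⟨tr (i : ℕ) i.isLt, ?_, ?_⟩
    · intro h
      have h1 : supHom (i : ℕ) i.isLt (tr (i : ℕ) i.isLt) = 1 := h
      rw [supHom_tr, if_pos rfl] at h1
      exact one_ne_zero (α := ZMod p) h1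
    · intro j hj
      show supHom (j : ℕ) j.isLt (tr (i : ℕ) i.isLt) = 1
      rw [supHom_tr, if_neg (fun h => hj (Fin.ext h))]
      rfl
  have hpG : IsPGroup p (UG p) := by
    intro g
    refine ⟨2, ?_⟩
    have h2 : Strict (((g : (Mat p)ˣ) : Mat p) - 1) := g.2.1
    apply Subtype.ext
    apply Units.ext
    show ((g : (Mat p)ˣ) : Mat p) ^ (p ^ 2) = 1
    rw [pow_two, pow_mul, coe_pow_p ((g : (Mat p)ˣ) : Mat p), one_add_pow_p, ← pow_mul,
      pow_big h2, add_zero]
    have := hpp.two_le
    nlinarith
  have hfin : Finite (UG p) := inferInstance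
  have key := hF (UG p) hpG H ⟨hidx, hexp,
    index_of_indep hpp (fun i => inferInstance) hidx hI⟩
  let g : UG p := (List.ofFn (fun i : Fin p => tr (i : ℕ) i.isLt)).prod
  have hg : ∀ l (hl : l < p), supHom l hl g = Multiplicative.ofAdd 1 := by
    intro l hl
    show supHom l hl (List.ofFn (fun i : Fin p => tr (i : ℕ) i.isLt)).prod = _
    rw [map_list_prod, List.map_ofFn, List.prod_ofFn, Finset.prod_eq_single ⟨l, hl⟩]
    · rw [Function.comp_apply, supHom_tr, if_pos rfl]
    · intro j _ hj
      rw [Function.comp_apply, supHom_tr, if_neg]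
      · rfl
      · intro h
        exact hj (Fin.ext h.symm)
    · intro h
      exact absurd (Finset.mem_univ _) h
  have h1 := congrArg (fun x : UG p => ((x : (Mat p)ˣ) : Mat p)) (key g)
  have h2 : ((g : (Mat p)ˣ) : Mat p) ^ p = 1 := h1
  have h3 : Strict (((g : (Mat p)ˣ) : Mat p) - 1) := g.2.1
  rw [coe_pow_p, add_eq_left] at h2
  have h4 := (pow_band h3 p).2 0 (Fin.last p) (by simp)
  rw [h2, Matrix.zero_apply, Finset.prod_eq_one] at h4
  · exact zero_ne_one h4
  · intro l hl
    have hl' := Finset.mem_range.mp hl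
    rw [Fin.val_zero, zero_add, sup_sub_one _ hl']
    exact hg l hl'

end

end Pool.CharExpP
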